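import Pool.Agent.Lib.MP_c81844_nt.SqPart1

/-! Euclid numbers: the squarefree part of every Euclid number (row F1) -/

namespace Pool.Agent.Lib.MP_c81844_nt

/-- ROW F1, strong form: with `p = p_(n+1)` (all smaller primes divide `E n - 1`). -/
theorem rowF1' : ∀ n A B : ℕ, E n = A * B ^ 2 →
    (Nat.nth Nat.Prime n - 2) * Nat.nth Nat.Prime n < 4 * A :=
  fun _ _ _ h => Pool.Agent.Lib.Euc.SqPart1.sq_part1' h

/-- ROW F1 -/
theorem rowF1 : ∀ n A B : ℕ, 2 ≤ n → E n = A * B ^ 2 →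
    Nat.nth Nat.Prime (n - 1) * (Nat.nth Nat.Prime (n - 1) + 2) < 4 * A := by
  intro n A B hn h
  have h1 := rowF1' n A B h
  have hlt : Nat.nth Nat.Prime (n - 1) < Nat.nth Nat.Prime n :=
    Nat.nth_strictMono Nat.infinite_setOfPred_prime (by omega)
  have h0 : Nat.nth Nat.Prime 0 = 2 := Nat.nth_prime_zero_eq_two
  have h2 : Nat.nth Nat.Prime 0 < Nat.nth Nat.Prime (n - 1) :=
    Nat.nth_strictMono Nat.infinite_setOfPred_prime (by omega)
  have ho1 : Nat.nth Nat.Prime (n - 1) % 2 = 1 := by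
    rcases (Nat.prime_nth_prime (n - 1)).eq_two_or_odd with h3 | h3
    · omega
    · exact h3
  have ho2 : Nat.nth Nat.Prime n % 2 = 1 := by
    rcases (Nat.prime_nth_prime n).eq_two_or_odd with h3 | h3
    · omega
    · exact h3
  refine lt_of_le_of_lt ?_ h1
  exact Nat.mul_le_mul (by omega) (by omega)

end Pool.Agent.Lib.MP_c81844_nt
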