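import Pool.Agent.Lib.MP_c81844_nt.SqPart1

/-! Row A of the Euclid number theorem (helper9). -/

set_option autoImplicit false

namespace Pool.Agent.Lib.MP_c81844_nt.A9

open scoped NumberTheorySymbols

open jacobiSym ZMod Pool.Agent.Lib.MP_c81844_nt

theorem symE {n A B p : ℕ} (h : E n = A * B ^ 2) (hp : p.Prime)
    (hlt : p < Nat.nth Nat.Prime n) : J((A : ℤ) | p) = 1 := by
  obtain ⟨c, hc⟩ := Pool.Agent.Lib.Euc.SqPart1.prime_dvd (n := n) hp hlt
  have h1 : J((E n : ℕ) | p) = 1 := by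
    have : J(((E n : ℕ) : ℤ) | p) = J((1 : ℤ) | p) := by
      apply mod_left'
      rw [hc]
      push_cast
      rw [Int.add_mul_emod_self_left]
    rw [this, one_left]
  rw [h] at h1
  push_cast at h1
  rw [mul_left, pow_left] at h1
  rcases trichotomy (B : ℤ) p with hb | hb | hb
  · rw [hb] at h1
    norm_num at h1
  · rw [hb] at h1
    simpa using h1
  · rw [hb] at h1
    simpa using h1

theorem modA {n A B : ℕ} (hn : 1 ≤ n) (h : E n = A * B ^ 2) : A % 4 = 3 := by
  have h4 := Pool.Agent.Lib.Euc.SqPart1.E_mod_four hn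
  rw [h, Nat.mul_mod, Nat.pow_mod] at h4
  have hb4 : B % 4 < 4 := Nat.mod_lt _ (by norm_num)
  have ha4 : A % 4 < 4 := Nat.mod_lt _ (by norm_num)
  interval_cases hb : B % 4 <;> interval_cases ha' : A % 4 <;> simp_all

theorem rowA9 : StA := by
  intro n A B hn h
  have hA := modA hn h
  refine ⟨hA, ?_, ?_⟩
  · intro q hq hqA
    by_contra hc
    push Not at hc
    obtain ⟨c, hc'⟩ := Pool.Agent.Lib.Euc.SqPart1.prime_dvd (n := n) hq hc
    have h1 : q ∣ E n := by
      rw [h]
      exact Dvd.dvd.mul_right hqA _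
    rw [hc'] at h1
    have h2 : q ∣ 1 := (Nat.dvd_add_left (Dvd.intro _ rfl)).1 h1
    exact hq.one_lt.ne' (Nat.dvd_one.1 h2)
  · intro r hr hr2 hlt
    have h1 : J((A : ℤ) | r) = 1 := symE h hr hlt
    have hro : Odd r := hr.odd_of_ne_two hr2
    rcases Nat.odd_mod_four_iff.1 (Nat.odd_iff.1 hro) with h4 | h4
    · have hAo : Odd A := Nat.odd_iff.2 (by omega)
      rw [quadratic_reciprocity_one_mod_four h4 hAo, h1, χ₄_nat_one_mod_four h4]
      norm_num
    · rw [quadratic_reciprocity_three_mod_four h4 hA, h1, χ₄_nat_three_mod_four h4]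
      norm_num

end Pool.Agent.Lib.MP_c81844_nt.A9
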