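import Pool.Agent.Lib.MP_c81844_nt.M26

/-! Clause (4) (helper7): a power saving on average over the primes `q`. -/

namespace Pool.Agent.Lib.MP_c81844_nt

open Finset

namespace Avg7

/-- at most `k - 1` primes divide both `E n` and `E (n + k)` -/
lemma pair_card (n k : ℕ) (S : Finset ℕ)
    (hS : ∀ q ∈ S, q.Prime ∧ q ∣ E n ∧ q ∣ E (n + k)) (hk : 1 ≤ k) : S.card ≤ k - 1 := by
  by_contra hc
  have hc' : k ≤ S.card := by omega
  set R := ∏ t ∈ range k, Nat.nth Nat.Prime (n + t) with hR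
  have hpos : ∀ t, 2 ≤ Nat.nth Nat.Prime t := fun t => (M26.pn_prime t).two_le
  have hR1 : 2 ≤ R := by
    have h0 : Nat.nth Nat.Prime (n + 0) ∣ R := Finset.dvd_prod_of_mem _ (mem_range.2 (by omega))
    have h1 : 0 < R := Finset.prod_pos fun t _ => by have := hpos (n + t); omega
    exact (hpos _).trans (Nat.le_of_dvd h1 h0)
  have hd : ∀ q ∈ S, q ∣ R - 1 := by
    intro q hq
    obtain ⟨hp, h1, h2⟩ := hS q hq
    have h3 : R * E n = (R - 1) + E (n + k) := by
      unfold E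
      rw [M26.P_add, ← hR]
      have h5 : R * (1 + P n) = R + P n * R := by ring
      rw [h5]
      omega
    have h4 : q ∣ (R - 1) + E (n + k) := h3 ▸ (h1.mul_left R)
    exact (Nat.dvd_add_left h2).1 h4
  have hprod : ∏ q ∈ S, q ∣ R - 1 :=
    Finset.prod_primes_dvd _ (fun q hq => (hS q hq).1.prime) hd
  have hle : ∏ q ∈ S, q ≤ R - 1 := Nat.le_of_dvd (by omega) hprod
  have hlow : (Nat.nth Nat.Prime (n + k)) ^ S.card ≤ ∏ q ∈ S, q := by
    rw [← Finset.prod_const]
    exact Finset.prod_le_prod' fun q hq => M26.le_of_dvd_E (hS q hq).1 (hS q hq).2.2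
  have hup : R ≤ (Nat.nth Nat.Prime (n + k)) ^ k := by
    have : (Nat.nth Nat.Prime (n + k)) ^ k = ∏ _t ∈ range k, Nat.nth Nat.Prime (n + k) := by
      rw [Finset.prod_const, card_range]
    rw [this]
    refine Finset.prod_le_prod' fun t ht => M26.pn_le ?_
    have := mem_range.1 ht
    omega
  have hpow : (Nat.nth Nat.Prime (n + k)) ^ k ≤ (Nat.nth Nat.Prime (n + k)) ^ S.card :=
    Nat.pow_le_pow_right (by have := hpos (n + k); omega) hc'
  omega

/-- hits in a block -/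
lemma comb (N K : ℕ) (hK : 1 ≤ K) (A : Finset ℕ) (hA : A ⊆ range N) :
    A.card ≤ N / K + 1 + ∑ k ∈ Ico 1 K, (A.filter (fun n => n + k ∈ A)).card := by
  classical
  have h1 : (A.filter (fun n => ∀ k ∈ Ico 1 K, n + k ∉ A)).card ≤ N / K + 1 := by
    have h0 : (A.filter (fun n => ∀ k ∈ Ico 1 K, n + k ∉ A)).card ≤ (range (N / K + 1)).card := by
      apply Finset.card_le_card_of_injOn (fun n => n / K)
      · intro n hn
        have hn1 := (mem_filter.1 (Finset.mem_coe.1 hn)).1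
        have hn2 := mem_range.1 (hA hn1)
        have : n / K ≤ N / K := Nat.div_le_div_right hn2.le
        exact Finset.mem_coe.2 (mem_range.2 (Nat.lt_succ_of_le this))
      · have key : ∀ a b : ℕ, a ∈ A.filter (fun n => ∀ k ∈ Ico 1 K, n + k ∉ A) → b ∈ A →
            a / K = b / K → ¬ a < b := by
          intro a b ha hb hab h
          have ha2 := (mem_filter.1 ha).2
          have h3 : b - a < K := by
            have e1 := Nat.div_add_mod a K
            have e2 := Nat.div_add_mod b K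
            have e3 := Nat.mod_lt b (show 0 < K by omega)
            rw [hab] at e1
            omega
          have h4 : a + (b - a) = b := by omega
          exact ha2 (b - a) (mem_Ico.2 ⟨by omega, h3⟩) (h4.symm ▸ hb)
        intro a ha b hb hab
        have ha' := Finset.mem_coe.1 ha
        have hb' := Finset.mem_coe.1 hb
        have k1 := key a b ha' (mem_filter.1 hb').1 hab
        have k2 := key b a hb' (mem_filter.1 ha').1 hab.symm
        omega
    simpa using h0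
  have h2 : A ⊆ (A.filter (fun n => ∀ k ∈ Ico 1 K, n + k ∉ A)) ∪
      (Ico 1 K).biUnion (fun k => A.filter (fun n => n + k ∈ A)) := by
    intro n hn
    by_cases h : ∀ k ∈ Ico 1 K, n + k ∉ A
    · exact mem_union_left _ (mem_filter.2 ⟨hn, h⟩)
    · push Not at h
      obtain ⟨k, hk, hk2⟩ := h
      exact mem_union_right _ (mem_biUnion.2 ⟨k, hk, mem_filter.2 ⟨hn, hk2⟩⟩)
  calc A.card ≤ _ := card_le_card h2
    _ ≤ _ := card_union_le _ _
    _ ≤ _ := add_le_add h1 card_biUnion_le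

/-- the bound with a free parameter `K` -/
theorem avgK (N K : ℕ) (hK : 1 ≤ K) (Q : Finset ℕ) (hQ : ∀ q ∈ Q, q.Prime) :
    ∑ q ∈ Q, ((range N).filter (fun n => q ∣ E n)).card ≤
      Q.card * (N / K + 1) + N * ∑ k ∈ Ico 1 K, (k - 1) := by
  classical
  have h1 : ∀ q ∈ Q, ((range N).filter (fun n => q ∣ E n)).card ≤ N / K + 1 +
      ∑ k ∈ Ico 1 K, ((range N).filter (fun n => q ∣ E n ∧ q ∣ E (n + k))).card := by
    intro q _
    refine (comb N K hK _ (filter_subset _ _)).trans (add_le_add le_rfl (sum_le_sum fun k _ => ?_))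
    refine card_le_card fun n hn => ?_
    have a1 := mem_filter.1 hn
    have a2 := mem_filter.1 a1.1
    have a3 := mem_filter.1 a1.2
    exact mem_filter.2 ⟨a2.1, a2.2, a3.2⟩
  refine (sum_le_sum h1).trans ?_
  rw [sum_add_distrib, sum_const, smul_eq_mul, sum_comm]
  refine add_le_add le_rfl ?_
  rw [mul_sum]
  refine sum_le_sum fun k hk => ?_
  have h2 : ∑ q ∈ Q, ((range N).filter (fun n => q ∣ E n ∧ q ∣ E (n + k))).card =
      ∑ n ∈ range N, (Q.filter (fun q => q ∣ E n ∧ q ∣ E (n + k))).card := by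
    simp only [card_filter]
    rw [sum_comm]
  rw [h2]
  have h3 : ∀ n ∈ range N, (Q.filter (fun q => q ∣ E n ∧ q ∣ E (n + k))).card ≤ k - 1 := by
    intro n _
    refine pair_card n k _ (fun q hq => ?_) (mem_Ico.1 hk).1
    have := mem_filter.1 hq
    exact ⟨hQ q this.1, this.2.1, this.2.2⟩
  refine (sum_le_sum h3).trans ?_
  simp

lemma gauss (K : ℕ) (hK : 1 ≤ K) : ((∑ k ∈ Ico 1 K, (k - 1) : ℕ) : ℝ) = ((K : ℝ) - 1) * ((K : ℝ) - 2) / 2 := by
  obtain ⟨m, rfl⟩ : ∃ m, K = m + 1 := ⟨K - 1, by omega⟩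
  rw [Finset.sum_Ico_eq_sum_range]
  simp only [Nat.add_sub_cancel, Nat.add_sub_cancel_left]
  induction m with
  | zero => simp
  | succ m ih =>
    rw [Finset.sum_range_succ]
    push_cast
    rw [show ((∑ x ∈ range m, (x : ℝ))) = ((∑ x ∈ range m, x : ℕ) : ℝ) by push_cast; rfl, ih (by omega)]
    push_cast
    ring

end Avg7

/-- CLAUSE (4): among a finite set `Q` of primes and the first `N` Euclid numbers there are at most
`|Q| + (3/2) N |Q|^(2/3)` pairs with `q` dividing `E n`. -/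
theorem avg7 (N : ℕ) (Q : Finset ℕ) (hQ : ∀ q ∈ Q, q.Prime) :
    ((∑ q ∈ Q, ((range N).filter (fun n => q ∣ E n)).card : ℕ) : ℝ) ≤
      Q.card + 3 / 2 * N * (Q.card : ℝ) ^ ((2 : ℝ) / 3) := by
  rcases Q.eq_empty_or_nonempty with rfl | hne
  · simp
  have hm : (1 : ℝ) ≤ Q.card := by exact_mod_cast hne.card_pos
  set m : ℝ := (Q.card : ℝ) with hmdef
  set c : ℝ := m ^ ((1 : ℝ) / 3) with hc
  have hc1 : 1 ≤ c := Real.one_le_rpow hm (by norm_num)
  have hc0 : 0 < c := by linarith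
  have hc2 : m ^ ((2 : ℝ) / 3) = c ^ 2 := by
    rw [hc, ← Real.rpow_natCast, ← Real.rpow_mul (by linarith)]
    norm_num
  have hc3 : c ^ 3 = m := by
    rw [hc, ← Real.rpow_natCast, ← Real.rpow_mul (by linarith)]
    norm_num
  set K := ⌈c⌉₊ with hKdef
  have hK1 : c ≤ K := Nat.le_ceil c
  have hK2 : (K : ℝ) < c + 1 := Nat.ceil_lt_add_one hc0.le
  have hK : 1 ≤ K := by
    have : (0 : ℝ) < K := by linarith
    exact_mod_cast this
  have h := Avg7.avgK N K hK Q hQ
  have h' : ((∑ q ∈ Q, ((range N).filter (fun n => q ∣ E n)).card : ℕ) : ℝ) ≤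
      m * ((N / K : ℕ) + 1) + N * ((∑ k ∈ Ico 1 K, (k - 1) : ℕ) : ℝ) := by
    rw [hmdef]
    exact_mod_cast h
  rw [Avg7.gauss K hK] at h'
  have hN0 : (0 : ℝ) ≤ N := Nat.cast_nonneg N
  have h1 : ((N / K : ℕ) : ℝ) ≤ N / c :=
    (Nat.cast_div_le).trans (div_le_div_of_nonneg_left hN0 hc0 hK1)
  have h2 : m * ((N / K : ℕ) : ℝ) ≤ N * c ^ 2 := by
    calc m * ((N / K : ℕ) : ℝ) ≤ m * (N / c) := mul_le_mul_of_nonneg_left h1 (by linarith)
      _ = N * c ^ 2 := by rw [← hc3]; field_simp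
  have hK1' : (1 : ℝ) ≤ K := by exact_mod_cast hK
  have h3 : ((K : ℝ) - 1) * ((K : ℝ) - 2) ≤ c ^ 2 := by nlinarith
  have h4 : (N : ℝ) * (((K : ℝ) - 1) * ((K : ℝ) - 2) / 2) ≤ N * (c ^ 2 / 2) :=
    mul_le_mul_of_nonneg_left (by linarith) hN0
  rw [hc2]
  nlinarith

/-- COROLLARY: at most `(3 N / (2 V)) ^ 3` primes, of any size, divide more than `V` of the first
`N` Euclid numbers. -/
theorem avgV7 (N V : ℕ) (hV : 1 ≤ V) :
    {q : ℕ | q.Prime ∧ V < ((range N).filter (fun n => q ∣ E n)).card}.Finite ∧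
    ({q : ℕ | q.Prime ∧ V < ((range N).filter (fun n => q ∣ E n)).card}.ncard : ℝ) ≤
      (3 * N / (2 * V)) ^ 3 := by
  classical
  have hfin : {q : ℕ | q.Prime ∧ V < ((range N).filter (fun n => q ∣ E n)).card}.Finite := by
    refine (Set.finite_Iic (∏ n ∈ range N, E n)).subset fun q hq => ?_
    have h1 : 0 < ((range N).filter (fun n => q ∣ E n)).card := by have := hq.2; omega
    obtain ⟨n, hn⟩ := card_pos.1 h1
    have h2 := mem_filter.1 hn
    refine Nat.le_of_dvd (prod_pos fun i _ => ?_) (h2.2.trans (dvd_prod_of_mem _ h2.1))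
    unfold E
    omega
  refine ⟨hfin, ?_⟩
  set Q : Finset ℕ := hfin.toFinset with hQdef
  have hcard : {q : ℕ | q.Prime ∧ V < ((range N).filter (fun n => q ∣ E n)).card}.ncard = Q.card :=
    Set.ncard_eq_toFinset_card _ hfin
  rw [hcard]
  have hQ : ∀ q ∈ Q, q.Prime ∧ V < ((range N).filter (fun n => q ∣ E n)).card := fun q hq =>
    (hfin.mem_toFinset.1 hq)
  have h1 := avg7 N Q fun q hq => (hQ q hq).1
  have h2 : Q.card * (V + 1) ≤ ∑ q ∈ Q, ((range N).filter (fun n => q ∣ E n)).card := by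
    rw [← smul_eq_mul, ← sum_const]
    exact sum_le_sum fun q hq => (hQ q hq).2
  have h3 : (Q.card : ℝ) * (V + 1) ≤
      ((∑ q ∈ Q, ((range N).filter (fun n => q ∣ E n)).card : ℕ) : ℝ) := by exact_mod_cast h2
  have hm : (0 : ℝ) ≤ Q.card := Nat.cast_nonneg _
  set m : ℝ := (Q.card : ℝ) with hmdef
  set c : ℝ := m ^ ((1 : ℝ) / 3) with hc
  have hc0 : 0 ≤ c := Real.rpow_nonneg hm _
  have hc2 : m ^ ((2 : ℝ) / 3) = c ^ 2 := by
    rw [hc, ← Real.rpow_natCast, ← Real.rpow_mul hm]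
    norm_num
  have hc3 : c ^ 3 = m := by
    rw [hc, ← Real.rpow_natCast, ← Real.rpow_mul hm]
    norm_num
  have hV' : (1 : ℝ) ≤ V := by exact_mod_cast hV
  have hN0 : (0 : ℝ) ≤ N := Nat.cast_nonneg N
  have h4 : m * V ≤ 3 / 2 * N * c ^ 2 := by rw [← hc2]; linarith
  rw [← hc3] at h4 ⊢
  have h5 : c ≤ 3 * N / (2 * V) := by
    rcases hc0.eq_or_lt with h | h
    · rw [← h]; positivity
    · have h6 : c * V ≤ 3 / 2 * N := by
        have h7 : c ^ 2 * (c * V) ≤ c ^ 2 * (3 / 2 * N) := by nlinarith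
        exact le_of_mul_le_mul_left h7 (by positivity)
      rw [le_div_iff₀ (by positivity)]
      linarith
  exact pow_le_pow_left₀ hc0 h5 3

end Pool.Agent.Lib.MP_c81844_nt
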