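import Pool.Agent.Lib.MP_c81844_nt.Defs26
import Pool.Agent.Lib.MP_bdd9a3_nt.SmoothAP

/-! ROW F2 (helper26): almost all Euclid numbers have a large squarefree part. -/

namespace Pool.Agent.Lib.MP_c81844_nt

open Finset

namespace F26

lemma loglog_pos {N : ℕ} (hN : 3 ≤ N) : (1 : ℝ) / 11 ≤ Real.log (Real.log N) := by
  have h3 : (1.0986 : ℝ) ≤ Real.log 3 := by
    have := Real.log_three_gt_d9
    linarith
  have h1 : (1.0986 : ℝ) ≤ Real.log N :=
    h3.trans (Real.log_le_log (by norm_num) (by exact_mod_cast hN))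
  have h2 : (1 : ℝ) / 11 ≤ Real.log 1.0986 := by
    rw [Real.le_log_iff_exp_le (by norm_num)]
    have := Real.exp_bound' (x := 1 / 11) (by norm_num) (by norm_num) (n := 3) (by norm_num)
    refine this.trans ?_
    norm_num [Finset.sum_range_succ, Nat.factorial]
  exact h2.trans (Real.log_le_log (by norm_num) h1)

lemma log_pos {N : ℕ} (hN : 3 ≤ N) : (1 : ℝ) ≤ Real.log N := by
  have h3 : (1.0986 : ℝ) ≤ Real.log 3 := by
    have := Real.log_three_gt_d9
    linarith
  have h1 : (1.0986 : ℝ) ≤ Real.log N :=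
    h3.trans (Real.log_le_log (by norm_num) (by exact_mod_cast hN))
  linarith

lemma smooth_card {v X K : ℕ} (hv : 3000 ≤ v) (hK : 4 ≤ K) (hX : v ≤ 2 * X) (hX2 : 2 * X ≤ v ^ K)
    (S : Finset ℕ) (hS : ∀ j, j < X → (∀ p : ℕ, p.Prime → p ∣ 2 * j + 1 → p ≤ v ^ 4) → j ∈ S) :
    (X : ℝ) / (4 ^ K * (K.factorial : ℝ)) ≤ S.card := by
  have h1 := Pool.Agent.Lib.MP_bdd9a3_nt.smoothAP_lower v 2 hv (by norm_num) (by omega) K hK
    ((2 * X : ℕ) : ℝ) (by exact_mod_cast hX) (by exact_mod_cast hX2) 1 (by norm_num)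
  have h2 : ((2 * X : ℕ) : ℝ) / (2 : ℕ) = X := by push_cast; ring
  rw [h2] at h1
  refine h1.trans ?_
  have : (Pool.Agent.Lib.MP_bdd9a3_nt.smoothAP (v ^ 4) 2 1 ((2 * X : ℕ) : ℝ)).card ≤ S.card := by
    apply Finset.card_le_card_of_injOn (fun m => m / 2)
    · intro m hm
      rw [Finset.mem_coe, Pool.Agent.Lib.MP_bdd9a3_nt.mem_smoothAP, Nat.floor_natCast] at hm
      obtain ⟨⟨h3, h4⟩, h5, h6⟩ := hm
      have h7 : m % 2 = 1 := h5
      rw [Finset.mem_coe]
      apply hS (m / 2) (by omega)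
      have h8 : 2 * (m / 2) + 1 = m := by omega
      rw [h8]
      exact h6
    · intro m hm m' hm' h
      rw [Finset.mem_coe, Pool.Agent.Lib.MP_bdd9a3_nt.mem_smoothAP] at hm hm'
      have h7 : m % 2 = 1 := hm.2.1
      have h8 : m' % 2 = 1 := hm'.2.1
      have h9 : m / 2 = m' / 2 := h
      omega
  exact_mod_cast this

lemma pow_aux (C t M K e f : ℕ) (ht : 1 ≤ t) (hM : M ≤ 4 ^ K * K.factorial) (h4 : 4 * K ≤ t)
    (hKe : K ≤ e) (hef : e + 1 ≤ f) (hCt : C ≤ t) : C * M ≤ t ^ f := by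
  have h1 : M ≤ t ^ e := by
    refine hM.trans ((Nat.mul_le_mul_left _ (Nat.factorial_le_pow K)).trans ?_)
    rw [← mul_pow]
    exact (Nat.pow_le_pow_left h4 K).trans (Nat.pow_le_pow_right ht hKe)
  calc C * M ≤ t * t ^ e := Nat.mul_le_mul hCt h1
    _ = t ^ (e + 1) := (pow_succ' t e).symm
    _ ≤ t ^ f := Nat.pow_le_pow_right ht hef

end F26

open F26 in
theorem rowF2_26 (hA : StA) (hS : StS) (hQ : StQ) (hM2 : StM2) : StF2 := by
  classical
  obtain ⟨C2, hC2, hM⟩ := hM2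
  obtain ⟨C, hC⟩ : ∃ C : ℕ, C = ⌈2 * C2⌉₊ + 900 := ⟨_, rfl⟩
  refine ⟨C, fun k N hN => ?_⟩
  obtain ⟨K, hK⟩ : ∃ K : ℕ, K = 18 * k + 10 := ⟨_, rfl⟩
  obtain ⟨M, hMdef⟩ : ∃ M : ℕ, M = 4 ^ K * K.factorial := ⟨_, rfl⟩
  obtain ⟨W, hW⟩ : ∃ W : ℕ, W = (C * (k + 1)) ^ (C * (k + 1)) := ⟨_, rfl⟩
  rw [← hW]
  have hM1 : 1 ≤ M := hMdef ▸ Nat.mul_pos (pow_pos (by norm_num) _) (Nat.factorial_pos _)
  set bad := (range N).filter (fun n => ∃ A B : ℕ, A ≤ N ^ k ∧ E n = A * B ^ 2) with hbad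
  have hset : {n : ℕ | n < N ∧ ∃ A B : ℕ, A ≤ N ^ k ∧ E n = A * B ^ 2} = (bad : Set ℕ) := by
    ext n
    simp [hbad]
  rw [hset, Set.ncard_coe_finset]
  have hl1 := log_pos hN
  have hll := loglog_pos hN
  have hlog0 : 0 < Real.log N := by linarith
  have hN0 : (0 : ℝ) < N := by
    have : 0 < N := by omega
    exact_mod_cast this
  set L : ℝ := N * Real.log (Real.log N) / Real.log N with hL
  have hL0 : 0 < L := by
    rw [hL]
    apply div_pos (mul_pos hN0 (by linarith)) hlog0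
  -- the constant
  have hconst : (2 * (M : ℝ) * C2 + 11) + (11 * 65 + 22 * M) ≤ (W : ℝ) := by
    have hCk : C * (k + 1) = C * k + C := by ring
    have h2 : C * M ≤ W := by
      rw [hW]
      have h72 : 72 * k ≤ C * k := Nat.mul_le_mul_right k (by omega)
      refine pow_aux C (C * (k + 1)) M K (18 * (k + 1)) (C * (k + 1)) ?_ hMdef.le ?_ ?_ ?_ ?_
      · omega
      · omega
      · omega
      · omega
      · omega
    have h3 : ((C * M : ℕ) : ℝ) ≤ (W : ℝ) := by exact_mod_cast h2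
    refine le_trans ?_ h3
    have h4 : 2 * C2 ≤ (⌈2 * C2⌉₊ : ℝ) := Nat.le_ceil _
    have h5 : (C : ℝ) = (⌈2 * C2⌉₊ : ℝ) + 900 := by rw [hC]; push_cast; ring
    have h6 : (1 : ℝ) ≤ M := by exact_mod_cast hM1
    push_cast
    rw [h5]
    nlinarith
  have hgoal : (W : ℝ) * (N : ℝ) * Real.log (Real.log N) / Real.log N = W * L := by rw [hL]; ring
  rw [hgoal]
  have hcardN : (bad.card : ℝ) ≤ N := by
    have : bad.card ≤ N := (Finset.card_filter_le _ _).trans (Finset.card_range N).le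
    exact_mod_cast this
  have hM0 : (1 : ℝ) ≤ M := by exact_mod_cast hM1
  -- the trivial range
  have htriv : Real.log N ≤ 65 + 2 * M → (bad.card : ℝ) ≤ W * L := by
    intro h
    have h1 : (N : ℝ) ≤ 11 * Real.log N * L := by
      rw [hL]
      have : 11 * Real.log N * (N * Real.log (Real.log N) / Real.log N) =
          N * (11 * Real.log (Real.log N)) := by field_simp
      rw [this]
      nlinarith
    calc (bad.card : ℝ) ≤ N := hcardN
      _ ≤ 11 * Real.log N * L := h1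
      _ ≤ (11 * 65 + 22 * M) * L := by
          apply mul_le_mul_of_nonneg_right _ hL0.le
          linarith
      _ ≤ _ := by
          apply mul_le_mul_of_nonneg_right _ hL0.le
          have : 0 ≤ 2 * (M : ℝ) * C2 + 11 := by positivity
          linarith
  set v : ℕ := Nat.sqrt (Nat.sqrt (Nat.sqrt N)) with hv
  have hv8 : v ^ 8 ≤ N := by
    have h1 : Nat.sqrt N ^ 2 ≤ N := by rw [pow_two]; exact Nat.sqrt_le N
    have h2 : Nat.sqrt (Nat.sqrt N) ^ 2 ≤ Nat.sqrt N := by rw [pow_two]; exact Nat.sqrt_le _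
    have h3 : v ^ 2 ≤ Nat.sqrt (Nat.sqrt N) := by rw [pow_two]; exact Nat.sqrt_le _
    calc v ^ 8 = ((v ^ 2) ^ 2) ^ 2 := by ring
      _ ≤ ((Nat.sqrt (Nat.sqrt N)) ^ 2) ^ 2 := Nat.pow_le_pow_left (Nat.pow_le_pow_left h3 2) 2
      _ ≤ (Nat.sqrt N) ^ 2 := Nat.pow_le_pow_left h2 2
      _ ≤ N := h1
  have hv9 : N < (v + 1) ^ 8 := by
    have h1 : N < (Nat.sqrt N + 1) ^ 2 := by rw [pow_two]; exact Nat.lt_succ_sqrt N
    have h2 : Nat.sqrt N + 1 ≤ (Nat.sqrt (Nat.sqrt N) + 1) ^ 2 := by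
      rw [pow_two]; exact Nat.lt_succ_sqrt _
    have h3 : Nat.sqrt (Nat.sqrt N) + 1 ≤ (v + 1) ^ 2 := by rw [pow_two]; exact Nat.lt_succ_sqrt _
    calc N < (Nat.sqrt N + 1) ^ 2 := h1
      _ ≤ ((Nat.sqrt (Nat.sqrt N) + 1) ^ 2) ^ 2 := Nat.pow_le_pow_left h2 2
      _ ≤ (((v + 1) ^ 2) ^ 2) ^ 2 := Nat.pow_le_pow_left (Nat.pow_le_pow_left h3 2) 2
      _ = (v + 1) ^ 8 := by ring
  by_cases hbig : 3000 ≤ v ∧ 2 * M ≤ N
  swap
  · apply htriv
    rw [not_and_or, not_le, not_le] at hbig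
    rcases hbig with h | h
    · have h1 : N < 3000 ^ 8 := lt_of_lt_of_le hv9 (Nat.pow_le_pow_left (by omega) 8)
      have h2 : Real.log N ≤ 65 := by
        have h3 : (N : ℝ) ≤ 3000 ^ 8 := by exact_mod_cast h1.le
        have h4 : Real.log N ≤ 8 * Real.log 3000 := by
          rw [← Real.log_rpow (by norm_num)]
          apply Real.log_le_log hN0
          norm_num
          norm_num at h3
          exact h3
        have h5 : Real.log 3000 ≤ 8.1 := by
          have h6 : (3000 : ℝ) ≤ 2 ^ (11.6 : ℝ) := by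
            have h7 : (3000 : ℝ) ^ (5 : ℕ) ≤ (2 : ℝ) ^ (58 : ℕ) := by norm_num
            have h8 : (3000 : ℝ) = ((3000 : ℝ) ^ (5 : ℕ)) ^ ((1 : ℝ) / 5) := by
              rw [← Real.rpow_natCast, ← Real.rpow_mul (by norm_num)]
              norm_num
            have h9 : (2 : ℝ) ^ (11.6 : ℝ) = ((2 : ℝ) ^ (58 : ℕ)) ^ ((1 : ℝ) / 5) := by
              rw [← Real.rpow_natCast, ← Real.rpow_mul (by norm_num)]
              norm_num
            rw [h8, h9]
            exact Real.rpow_le_rpow (by norm_num) h7 (by norm_num)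
          have h10 := Real.log_le_log (by norm_num) h6
          rw [Real.log_rpow (by norm_num)] at h10
          have h11 := Real.log_two_lt_d9
          linarith
        linarith
      linarith
    · have h1 : (N : ℝ) ≤ 2 * M := by exact_mod_cast h.le
      have h2 : Real.log N ≤ N := (Real.log_le_sub_one_of_pos hN0).trans (by linarith)
      linarith
  obtain ⟨hv3, hNM⟩ := hbig
  -- main range
  set X : ℕ := N ^ (2 * k + 1) with hX
  have hNv : N ≤ v ^ 9 := by
    calc N ≤ (v + 1) ^ 8 := hv9.le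
      _ ≤ (2 * v) ^ 8 := Nat.pow_le_pow_left (by omega) 8
      _ = 256 * v ^ 8 := by ring
      _ ≤ v * v ^ 8 := Nat.mul_le_mul_right _ (by omega)
      _ = v ^ 9 := by ring
  have hNX : N ≤ X := by
    rw [hX]
    exact Nat.le_self_pow (by omega) N
  have hvN : v ≤ N := (Nat.le_self_pow (by norm_num) v).trans hv8
  have hX1 : v ≤ 2 * X := by omega
  have hX2 : 2 * X ≤ v ^ K := by
    calc 2 * X ≤ v * (v ^ 9) ^ (2 * k + 1) :=
          Nat.mul_le_mul (by omega) (Nat.pow_le_pow_left hNv _)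
      _ = v ^ K := by
          rw [← pow_mul, ← pow_succ', hK]
          congr 1
          ring
  set S := (range X).filter (fun j => ∀ p : ℕ, p.Prime → p ∣ 2 * j + 1 → p ≤ v ^ 4) with hSdef
  have hScard : (X : ℝ) / (4 ^ K * (K.factorial : ℝ)) ≤ S.card :=
    smooth_card hv3 (by omega) hX1 hX2 S fun j hj h =>
      Finset.mem_filter.2 ⟨Finset.mem_range.2 hj, h⟩
  have hMr : (4 ^ K * (K.factorial : ℝ)) = M := by rw [hMdef]; push_cast; ring
  rw [hMr, div_le_iff₀ (by linarith)] at hScard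
  have hScard' : X ≤ S.card * M := by exact_mod_cast hScard
  set F := (range (N ^ k + 1)).filter (fun a => Squarefree a ∧
    ∃ n, v ^ 4 ≤ n ∧ n < N ∧ ∃ B, E n = a * B ^ 2) with hF
  have hFprop : ∀ a ∈ F, a % 4 = 3 ∧ Squarefree a ∧ a ≤ N ^ k := by
    intro a ha
    rw [hF, Finset.mem_filter, Finset.mem_range] at ha
    obtain ⟨h1, h2, n, h3, h4, B, h5⟩ := ha
    have hn1 : 1 ≤ n := le_trans (Nat.one_le_pow _ _ (by omega)) h3
    exact ⟨(hA n a B hn1 h5).1, h2, by omega⟩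
  have hFone : ∀ a ∈ F, ∀ j ∈ S,
      jacobiSym ((2 * j + 1 : ℕ) : ℤ) a * ZMod.χ₄ ((2 * j + 1 : ℕ) : ZMod 4) = 1 := by
    intro a ha j hj
    rw [hF, Finset.mem_filter, Finset.mem_range] at ha
    obtain ⟨h1, h2, n, h3, h4, B, h5⟩ := ha
    have hn1 : 1 ≤ n := le_trans (Nat.one_le_pow _ _ (by omega)) h3
    rw [hSdef, Finset.mem_filter] at hj
    refine hS a (v ^ 4) (fun r hr hr2 hrv => ?_) (2 * j + 1) ⟨j, rfl⟩ hj.2
    refine (hA n a B hn1 h5).2.2 r hr hr2 ?_
    have := Nat.add_two_le_nth_prime n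
    omega
  have hST : 2 * (N ^ k) ^ 2 ≤ S.card := by
    have h1 : X = N * (N ^ k) ^ 2 := by rw [hX]; ring
    rw [h1] at hScard'
    by_contra h
    rw [not_le] at h
    have h2 : S.card * M < 2 * (N ^ k) ^ 2 * M := Nat.mul_lt_mul_of_pos_right h hM1
    have h3 : 2 * (N ^ k) ^ 2 * M ≤ N * (N ^ k) ^ 2 := by
      calc 2 * (N ^ k) ^ 2 * M = (2 * M) * (N ^ k) ^ 2 := by ring
        _ ≤ N * (N ^ k) ^ 2 := Nat.mul_le_mul_right _ hNM
    omega
  have hFS := hQ F (N ^ k) X S hFprop (Finset.filter_subset _ _) hFone hST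
  have hXpos : 0 < X := by rw [hX]; exact pow_pos (by omega) _
  have hFcard : F.card ≤ 2 * M := by
    have h1 : F.card * X ≤ 2 * M * X := by
      calc F.card * X ≤ F.card * (S.card * M) := Nat.mul_le_mul_left _ hScard'
        _ = (F.card * S.card) * M := by ring
        _ ≤ (2 * X) * M := Nat.mul_le_mul_right _ hFS
        _ = 2 * M * X := by ring
    exact Nat.le_of_mul_le_mul_right h1 hXpos
  have hcover : bad ⊆ range (v ^ 4) ∪ F.biUnion (fun a => (range N).filter
      (fun n => a.minFac ∣ E n)) := by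
    intro n hn
    rw [hbad, Finset.mem_filter, Finset.mem_range] at hn
    obtain ⟨hnN, A, B, hAN, hE⟩ := hn
    rw [Finset.mem_union]
    by_cases hn4 : n < v ^ 4
    · exact Or.inl (Finset.mem_range.2 hn4)
    · right
      rw [not_lt] at hn4
      obtain ⟨a, b, hab, hsq⟩ := Nat.sq_mul_squarefree A
      have hA0 : A ≠ 0 := by
        rintro rfl
        unfold E at hE
        omega
      have hb0 : b ≠ 0 := by
        rintro rfl
        apply hA0
        rw [← hab]; ring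
      have haA : a ≤ A := by
        rw [← hab]
        exact Nat.le_mul_of_pos_left a (pow_pos (Nat.pos_of_ne_zero hb0) 2)
      have hE2 : E n = a * (b * B) ^ 2 := by rw [hE, ← hab]; ring
      rw [Finset.mem_biUnion]
      refine ⟨a, Finset.mem_filter.2 ⟨Finset.mem_range.2 (by omega), hsq, n, hn4, hnN, b * B, hE2⟩, ?_⟩
      rw [Finset.mem_filter, Finset.mem_range]
      exact ⟨hnN, (Nat.minFac_dvd a).trans (by rw [hE2]; exact Dvd.intro _ rfl)⟩
  have hcard2 : (bad.card : ℝ) ≤ (v : ℝ) ^ 4 + (2 * M) * (C2 * L) := by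
    have h1 : bad.card ≤ v ^ 4 + ∑ a ∈ F, ((range N).filter (fun n => a.minFac ∣ E n)).card := by
      refine (Finset.card_le_card hcover).trans ((Finset.card_union_le _ _).trans ?_)
      rw [Finset.card_range]
      exact Nat.add_le_add_left Finset.card_biUnion_le _
    have h2 : (∑ a ∈ F, ((range N).filter (fun n => a.minFac ∣ E n)).card : ℝ) ≤
        (2 * M) * (C2 * L) := by
      have h3 : ∀ a ∈ F, (((range N).filter (fun n => a.minFac ∣ E n)).card : ℝ) ≤ C2 * L := by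
        intro a ha
        have h4 := (hFprop a ha).1
        have h5 := hM a.minFac N (Nat.minFac_prime (by omega)) hN
        refine h5.trans (le_of_eq ?_)
        rw [hL]; ring
      calc (∑ a ∈ F, ((range N).filter (fun n => a.minFac ∣ E n)).card : ℝ)
          ≤ ∑ a ∈ F, C2 * L := Finset.sum_le_sum h3
        _ = F.card * (C2 * L) := by rw [Finset.sum_const, nsmul_eq_mul]
        _ ≤ (2 * M) * (C2 * L) := by
            apply mul_le_mul_of_nonneg_right _ (mul_nonneg hC2.le hL0.le)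
            exact_mod_cast hFcard
    have h3 : (bad.card : ℝ) ≤ ((v ^ 4 + ∑ a ∈ F, ((range N).filter
        (fun n => a.minFac ∣ E n)).card : ℕ) : ℝ) := by exact_mod_cast h1
    push_cast at h3
    linarith
  have hv4 : (v : ℝ) ^ 4 ≤ 11 * L := by
    have h1 : ((v : ℝ) ^ 4) ^ 2 ≤ N := by
      have : (v ^ 4) ^ 2 ≤ N := by
        calc (v ^ 4) ^ 2 = v ^ 8 := by ring
          _ ≤ N := hv8
      exact_mod_cast this
    have h2 : (v : ℝ) ^ 4 ≤ Real.sqrt N := Real.le_sqrt_of_sq_le h1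
    have h3 : Real.log N ≤ Real.sqrt N := by
      have h4 : Real.log (Real.sqrt N) = Real.log N / 2 := Real.log_sqrt hN0.le
      have hs : 0 < Real.sqrt N := Real.sqrt_pos.2 hN0
      have h5 : Real.log (Real.sqrt N / 2) ≤ Real.sqrt N / 2 - 1 :=
        Real.log_le_sub_one_of_pos (by positivity)
      rw [Real.log_div hs.ne' (by norm_num), h4] at h5
      have h6 := Real.log_two_lt_d9
      linarith
    have h4 : Real.sqrt N * Real.sqrt N = N := Real.mul_self_sqrt hN0.le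
    have h5 : Real.sqrt N * Real.log N ≤ 11 * (N * Real.log (Real.log N)) := by
      calc Real.sqrt N * Real.log N ≤ Real.sqrt N * Real.sqrt N :=
            mul_le_mul_of_nonneg_left h3 (Real.sqrt_nonneg _)
        _ = N := h4
        _ ≤ 11 * (N * Real.log (Real.log N)) := by nlinarith
    have h6 : Real.sqrt N ≤ 11 * L := by
      rw [hL, ← mul_div_assoc, le_div_iff₀ hlog0]
      exact h5
    linarith
  calc (bad.card : ℝ) ≤ (v : ℝ) ^ 4 + (2 * M) * (C2 * L) := hcard2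
    _ ≤ 11 * L + (2 * M) * (C2 * L) := by linarith
    _ = (2 * M * C2 + 11) * L := by ring
    _ ≤ _ := by
        apply mul_le_mul_of_nonneg_right _ hL0.le
        have : 0 ≤ (11 * 65 + 22 * (M : ℝ)) := by positivity
        linarith

end Pool.Agent.Lib.MP_c81844_nt
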