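import Mathlib

/-! Euclid numbers `E n = 1 + p_1 ... p_n`: definitions and rows (helper26).

Theorem. (1) There is `c > 0` such that `E n = A * B ^ 2` implies `A ≥ c * p_(n+1) ^ (sqrt e)`.
(2) There is `C` such that for all `k` and `N ≥ 3` at most `(C (k+1)) ^ (C (k+1)) * N loglog N / log N`
of the `n < N` have `E n = A * B ^ 2` with `A ≤ N ^ k`.
(3) There is `C` such that for all primes `q` and `N ≥ 3` at most `C * N loglog N / log N` of the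
`n < N` have `q` dividing `E n`. -/

namespace Pool.Agent.Lib.MP_c81844_nt

open Finset

/-- product of the first `n` primes -/
noncomputable def P (n : ℕ) : ℕ := ∏ i ∈ Finset.range n, Nat.nth Nat.Prime i

/-- the `n`-th Euclid number -/
noncomputable def E (n : ℕ) : ℕ := 1 + P n

/-- ROW A: basics -/
def StA : Prop := ∀ n A B : ℕ, 1 ≤ n → E n = A * B ^ 2 →
  A % 4 = 3 ∧ (∀ q : ℕ, q.Prime → q ∣ A → Nat.nth Nat.Prime n ≤ q) ∧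
  ∀ r : ℕ, r.Prime → r ≠ 2 → r < Nat.nth Nat.Prime n →
    jacobiSym (r : ℤ) A * ZMod.χ₄ (r : ZMod 4) = 1

/-- ROW S: multiplicativity -/
def StS : Prop := ∀ A y : ℕ,
  (∀ r : ℕ, r.Prime → r ≠ 2 → r ≤ y → jacobiSym (r : ℤ) A * ZMod.χ₄ (r : ZMod 4) = 1) →
  ∀ m : ℕ, Odd m → (∀ p : ℕ, p.Prime → p ∣ m → p ≤ y) →
    jacobiSym (m : ℤ) A * ZMod.χ₄ (m : ZMod 4) = 1

/-- ROW O: character sums over odd numbers -/
def StO : Prop := ∀ A A' : ℕ, Odd A → Odd A' → Squarefree A → Squarefree A' → A ≠ A' →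
  ∀ X : ℕ, |∑ j ∈ range X, jacobiSym ((2 * j + 1 : ℕ) : ℤ) (A * A')| ≤ ((A * A' : ℕ) : ℤ)

/-- ROW Q: few `A` -/
def StQ : Prop := ∀ (F : Finset ℕ) (T X : ℕ) (S : Finset ℕ),
  (∀ A ∈ F, A % 4 = 3 ∧ Squarefree A ∧ A ≤ T) → S ⊆ range X →
  (∀ A ∈ F, ∀ j ∈ S, jacobiSym ((2 * j + 1 : ℕ) : ℤ) A * ZMod.χ₄ ((2 * j + 1 : ℕ) : ZMod 4) = 1) →
  2 * T ^ 2 ≤ S.card → F.card * S.card ≤ 2 * X

/-- ROW M: the pattern count -/
def StM : Prop := ∀ q N K H : ℕ, q.Prime → 1 ≤ K → 1 ≤ H →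
  ((range N).filter (fun n => q ∣ E n)).card ≤
    1 + N / K + Nat.nth Nat.Prime N / H + (K + 1) * K * H ^ K

/-- ROW N: size of the n-th prime -/
def StN : Prop := ∃ C : ℝ, ∀ N : ℕ, 3 ≤ N → (Nat.nth Nat.Prime N : ℝ) ≤ C * N * Real.log N

/-- ROW M2: uniform bound for one prime (from StM, StN) -/
def StM2 : Prop := ∃ C : ℝ, 0 < C ∧ ∀ q N : ℕ, q.Prime → 3 ≤ N →
  (((range N).filter (fun n => q ∣ E n)).card : ℝ) ≤
    C * N * Real.log (Real.log N) / Real.log N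

/-- ROW F2: almost all n (from StA, StS, StQ, StM2, smoothAP_lower) -/
def StF2 : Prop := ∃ C : ℕ, ∀ k N : ℕ, 3 ≤ N →
  ({n : ℕ | n < N ∧ ∃ A B : ℕ, A ≤ N ^ k ∧ E n = A * B ^ 2}.ncard : ℝ) ≤
    ((C * (k + 1)) ^ (C * (k + 1)) : ℕ) * N * Real.log (Real.log N) / Real.log N

/-- ROW V1: half of the odd numbers below 2q have a large prime factor -/
def StV1 : Prop := ∀ q y : ℕ, q.Prime → q % 4 = 3 →
  (∀ m : ℕ, Odd m → (∀ p : ℕ, p.Prime → p ∣ m → p < y) →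
    jacobiSym (m : ℤ) q * ZMod.χ₄ (m : ZMod 4) = 1) →
  ((q : ℝ) - 1) / 2 ≤ ∑ r ∈ (Finset.Ico y (2 * q)).filter Nat.Prime, ((q : ℝ) / r + 1 / 2)

/-- ROW V2: analysis (PrimeSum.range_bound, Chebyshev.pi_le_log4_mul_div) -/
def StV2 : Prop := ∃ c : ℝ, 0 < c ∧ ∀ q y : ℕ, 2 ≤ y → y ≤ q →
  ((q : ℝ) - 1) / 2 ≤ ∑ r ∈ (Finset.Ico y (2 * q)).filter Nat.Prime, ((q : ℝ) / r + 1 / 2) →
  c * (y : ℝ) ^ Real.sqrt (Real.exp 1) ≤ q

/-- ROW F1: the bound for every n (from StA, StS, StV1, StV2) -/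
def StF1 : Prop := ∃ c : ℝ, 0 < c ∧ ∀ n A B : ℕ, E n = A * B ^ 2 →
  c * (Nat.nth Nat.Prime n : ℝ) ^ Real.sqrt (Real.exp 1) ≤ A

end Pool.Agent.Lib.MP_c81844_nt
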