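import Mathlib
import Pool.Agent.Lib.MP_c81844_nt.Defs26

/-! Row M2 (helper82): uniform bound for one prime, from the pattern count (row M) and the size of
the `n`-th prime (row N). -/

namespace Pool.Agent.Lib.MP_c81844_nt

open Finset Real

theorem loglog3_pos : 0 < Real.log (Real.log 3) := by
  apply Real.log_pos
  rw [Real.lt_log_iff_exp_lt (by norm_num)]
  have := Real.exp_one_lt_d9
  linarith

theorem rowM2_82 (hM : StM) (hN : StN) : StM2 := by
  obtain ⟨C0, hC0⟩ := hN
  set C1 : ℝ := max C0 0 with hC1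
  have hC1n : 0 ≤ C1 := le_max_right _ _
  have hl3 := loglog3_pos
  set C2 : ℝ := 256 / Real.log (Real.log 3) with hC2
  have hC2p : 0 < C2 := by positivity
  refine ⟨C2 + (18 + 2 * C1), by positivity, ?_⟩
  intro q N hq hN3
  have hN3r : (3 : ℝ) ≤ N := by exact_mod_cast hN3
  have hNpos : (0 : ℝ) < N := by linarith
  set L : ℝ := Real.log N with hL
  have hL3 : Real.log 3 ≤ L := Real.log_le_log (by norm_num) hN3r
  have hlog3 : 1 < Real.log 3 := by
    rw [Real.lt_log_iff_exp_lt (by norm_num)]
    have := Real.exp_one_lt_d9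
    linarith
  have hL1 : 1 < L := lt_of_lt_of_le hlog3 hL3
  have hLpos : 0 < L := by linarith
  have hll : Real.log (Real.log 3) ≤ Real.log L := Real.log_le_log (by linarith) hL3
  have hllpos : 0 < Real.log L := lt_of_lt_of_le hl3 hll
  set Q : ℝ := (N : ℝ) * Real.log L / L with hQ
  have hQpos : 0 < Q := by positivity
  have hgoal : (C2 + (18 + 2 * C1)) * N * Real.log L / L = C2 * Q + (18 + 2 * C1) * Q := by
    rw [hQ]; ring
  rw [hgoal]
  rcases lt_or_ge L 256 with hLs | hLb
  · -- small N
    have hcard : (((range N).filter (fun n => q ∣ E n)).card : ℝ) ≤ N := by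
      have : ((range N).filter (fun n => q ∣ E n)).card ≤ N := by
        calc _ ≤ (range N).card := Finset.card_filter_le _ _
          _ = N := by simp
      exact_mod_cast this
    have h1 : (N : ℝ) ≤ C2 * Q := by
      rw [hC2, hQ, div_mul_div_comm, le_div_iff₀ (by positivity)]
      have : Real.log (Real.log 3) * L ≤ 256 * Real.log L := by
        have := mul_le_mul hll hLs.le hLpos.le hllpos.le
        linarith
      nlinarith
    have h2 : 0 ≤ (18 + 2 * C1) * Q := by positivity
    linarith
  · -- large N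
    have hsq : 8 * Real.log L ≤ L := by
      have h1 : Real.log (Real.sqrt L) ≤ Real.sqrt L - 1 :=
        Real.log_le_sub_one_of_pos (Real.sqrt_pos.mpr hLpos)
      have h2 : Real.log (Real.sqrt L) = Real.log L / 2 := Real.log_sqrt hLpos.le
      have h3 : 16 ≤ Real.sqrt L := by
        rw [show (16 : ℝ) = Real.sqrt 256 by
          rw [show (256 : ℝ) = 16 ^ 2 by norm_num]; simp]
        exact Real.sqrt_le_sqrt hLb
      have h4 : Real.sqrt L * Real.sqrt L = L := Real.mul_self_sqrt hLpos.le
      nlinarith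
    have hll1 : 1 ≤ Real.log L := by
      rw [Real.le_log_iff_exp_le hLpos]
      have := Real.exp_one_lt_d9
      linarith
    set y : ℝ := L / (8 * Real.log L) with hy
    have hy1 : 1 ≤ y := by
      rw [hy, le_div_iff₀ (by positivity)]; linarith
    have hypos : 0 < y := by linarith
    set K : ℕ := ⌊y⌋₊ with hK
    have hK1 : 1 ≤ K := by
      rw [hK, Nat.one_le_floor_iff]; exact hy1
    have hKle : (K : ℝ) ≤ y := Nat.floor_le hypos.le
    have hKge : y / 2 ≤ (K : ℝ) := by
      have h1 : y < K + 1 := Nat.lt_floor_add_one y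
      have h2 : (1 : ℝ) ≤ K := by exact_mod_cast hK1
      linarith
    set H : ℕ := ⌊L ^ 3⌋₊ with hH
    have hL3one : 1 ≤ L ^ 3 := one_le_pow₀ hL1.le
    have hH1 : 1 ≤ H := by
      rw [hH, Nat.one_le_floor_iff]; exact hL3one
    have hHle : (H : ℝ) ≤ L ^ 3 := Nat.floor_le (by positivity)
    have hHge : L ^ 3 / 2 ≤ (H : ℝ) := by
      have h1 : L ^ 3 < H + 1 := Nat.lt_floor_add_one _
      have h2 : (1 : ℝ) ≤ H := by exact_mod_cast hH1
      linarith
    have hKr : (0 : ℝ) < K := by exact_mod_cast hK1
    have hHr : (0 : ℝ) < H := by exact_mod_cast hH1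
    have hmain := hM q N K H hq hK1 hH1
    have hmainr : (((range N).filter (fun n => q ∣ E n)).card : ℝ) ≤
        1 + (N : ℝ) / K + (Nat.nth Nat.Prime N : ℝ) / H + (K + 1) * K * (H : ℝ) ^ K := by
      have h1 : (((range N).filter (fun n => q ∣ E n)).card : ℝ) ≤
          ((1 + N / K + Nat.nth Nat.Prime N / H + (K + 1) * K * H ^ K : ℕ) : ℝ) := by
        exact_mod_cast hmain
      refine h1.trans ?_
      push_cast
      have h2 : ((N / K : ℕ) : ℝ) ≤ (N : ℝ) / K := Nat.cast_div_le
      have h3 : ((Nat.nth Nat.Prime N / H : ℕ) : ℝ) ≤ (Nat.nth Nat.Prime N : ℝ) / H :=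
        Nat.cast_div_le
      linarith
    -- term 1
    have hexpL : Real.exp L = N := Real.exp_log hNpos
    have t1 : 1 ≤ Q := by
      rw [hQ, le_div_iff₀ hLpos]
      have h1 : L ≤ N := by
        have := Real.add_one_le_exp L
        linarith
      nlinarith
    -- term 2
    have t2 : (N : ℝ) / K ≤ 16 * Q := by
      have h1 : (N : ℝ) / K ≤ N / (y / 2) := by
        apply div_le_div_of_nonneg_left hNpos.le (by positivity) hKge
      refine h1.trans (le_of_eq ?_)
      rw [hy, hQ]
      field_simp
      ring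
    -- term 3
    have t3 : (Nat.nth Nat.Prime N : ℝ) / H ≤ 2 * C1 * Q := by
      have h1 : (Nat.nth Nat.Prime N : ℝ) ≤ C1 * N * L := by
        have h0 := hC0 N hN3
        have h2 : C0 * N * Real.log N ≤ C1 * N * L := by
          have h3 : C0 ≤ C1 := le_max_left _ _
          have h4 : (0 : ℝ) ≤ N * L := by positivity
          nlinarith
        linarith
      have h2 : (Nat.nth Nat.Prime N : ℝ) / H ≤ (C1 * N * L) / (L ^ 3 / 2) := by
        apply div_le_div₀ (by positivity) h1 (by positivity) hHge
      refine h2.trans ?_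
      have h3 : (C1 * N * L) / (L ^ 3 / 2) = 2 * C1 * (N / L ^ 2) := by
        field_simp
      rw [h3]
      have h4 : (N : ℝ) / L ^ 2 ≤ Q := by
        rw [hQ, div_le_div_iff₀ (by positivity) hLpos]
        have h5 : L ≤ Real.log L * L ^ 2 := by nlinarith
        nlinarith
      exact mul_le_mul_of_nonneg_left h4 (by positivity)
    -- term 4
    have t4 : ((K : ℝ) + 1) * K * (H : ℝ) ^ K ≤ Q := by
      have hyL : y + 1 ≤ L := by
        have h1 : y ≤ L / 8 := by
          rw [hy]
          apply div_le_div_of_nonneg_left hLpos.le (by norm_num)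
          linarith
        linarith
      have h1 : ((K : ℝ) + 1) * K ≤ L ^ 2 := by nlinarith
      have h2 : (H : ℝ) ^ K ≤ Real.exp (3 * L / 8) := by
        have h3 : (H : ℝ) ^ K ≤ (L ^ 3) ^ K := pow_le_pow_left₀ hHr.le hHle K
        refine h3.trans ?_
        have h4 : (L ^ 3) ^ K = Real.exp (K * (3 * Real.log L)) := by
          rw [Real.exp_nat_mul]
          congr 1
          rw [show (3 : ℝ) * Real.log L = ((3 : ℕ) : ℝ) * Real.log L by norm_num,
            Real.exp_nat_mul, Real.exp_log hLpos]
        rw [h4]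
        apply Real.exp_le_exp.mpr
        have h5 : (K : ℝ) * (3 * Real.log L) ≤ y * (3 * Real.log L) :=
          mul_le_mul_of_nonneg_right hKle (by positivity)
        refine h5.trans (le_of_eq ?_)
        rw [hy]
        field_simp
      have h3 : ((K : ℝ) + 1) * K * (H : ℝ) ^ K ≤ L ^ 2 * Real.exp (3 * L / 8) :=
        mul_le_mul h1 h2 (by positivity) (by positivity)
      refine h3.trans ?_
      have h4 : L ^ 3 ≤ Real.exp (5 * L / 8) := by
        have h5 := Real.pow_div_factorial_le_exp (5 * L / 8) (by positivity) 4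
        refine le_trans ?_ h5
        have h6 : ((Nat.factorial 4 : ℕ) : ℝ) = 24 := by norm_num [Nat.factorial]
        rw [h6, le_div_iff₀ (by norm_num)]
        have h7 : (5 * L / 8) ^ 4 = L ^ 3 * (625 / 4096 * L) := by ring
        rw [h7]
        apply mul_le_mul_of_nonneg_left _ (by positivity)
        linarith
      have h5 : (N : ℝ) = Real.exp (5 * L / 8) * Real.exp (3 * L / 8) := by
        rw [← Real.exp_add, ← hexpL]; congr 1; ring
      rw [hQ, le_div_iff₀ hLpos]
      have hE := Real.exp_pos (3 * L / 8)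
      calc L ^ 2 * Real.exp (3 * L / 8) * L = L ^ 3 * Real.exp (3 * L / 8) := by ring
        _ ≤ Real.exp (5 * L / 8) * Real.exp (3 * L / 8) :=
            mul_le_mul_of_nonneg_right h4 hE.le
        _ = (N : ℝ) * 1 := by rw [← h5]; ring
        _ ≤ (N : ℝ) * Real.log L := mul_le_mul_of_nonneg_left hll1 hNpos.le
    have h5 : 0 ≤ C2 * Q := by positivity
    nlinarith

end Pool.Agent.Lib.MP_c81844_nt
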