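import Pool.Agent.Lib.MP_c81844_nt.Defs26

/-! ROW N (helper84): size of the n-th prime. -/

namespace Pool.Agent.Lib.MP_c81844_nt

open Real in
theorem rown84 : StN := by
  refine ⟨18, fun N hN => ?_⟩
  set p := Nat.nth Nat.Prime N with hp
  have hpp : p.Prime := Nat.prime_nth_prime N
  have hpi : Nat.primeCounting p = N + 1 := by
    have h1 : Nat.primeCounting' p = N := by
      rw [hp]; exact Nat.primeCounting'_nth_eq N
    rw [Nat.primeCounting, Nat.primeCounting', Nat.count_succ, if_pos hpp]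
    rw [Nat.primeCounting'] at h1
    rw [h1]
  have hp2 : (2 : ℝ) ≤ p := by exact_mod_cast hpp.two_le
  have hlp : 0 < log p := log_pos (by linarith)
  have hN3 : (3 : ℝ) ≤ N := by exact_mod_cast hN
  have h2 : 0.6931471803 < log 2 := log_two_gt_d9
  have hge := Chebyshev.pi_ge p
  rw [hpi, div_le_iff₀ hlp] at hge
  push_cast at hge
  have hp1 : log ((p : ℝ) + 1) ≤ 2 * log p := by
    have : log ((p : ℝ) + 1) ≤ log ((p : ℝ) * p) :=
      log_le_log (by linarith) (by nlinarith)
    rw [log_mul (by linarith) (by linarith)] at this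
    linarith
  -- p log 2 ≤ 2 N log p
  have h3 : (p : ℝ) * log 2 ≤ 2 * N * log p := by nlinarith
  have h4 : (p : ℝ) ≤ 3 * N * log p := by
    have hNp : 0 ≤ (N : ℝ) * log p := by positivity
    nlinarith
  have h5 : log p ≤ 2 * √p := by
    have hs : 0 < √(p : ℝ) := sqrt_pos.2 (by linarith)
    have := log_le_sub_one_of_pos hs
    rw [log_sqrt (by linarith)] at this
    linarith
  have hs : 0 < √(p : ℝ) := sqrt_pos.2 (by linarith)
  have h6 : √(p : ℝ) ≤ 6 * N := by
    have hsq : √(p : ℝ) * √p = p := mul_self_sqrt (by linarith)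
    have h7 : √(p : ℝ) * √p ≤ (6 * N) * √p := by
      rw [hsq]
      calc (p : ℝ) ≤ 3 * N * log p := h4
        _ ≤ 3 * N * (2 * √p) := by gcongr
        _ = (6 * N) * √p := by ring
    exact le_of_mul_le_mul_right h7 hs
  have h8 : (p : ℝ) ≤ 36 * N ^ 2 := by
    have hsq : √(p : ℝ) * √p = p := mul_self_sqrt (by linarith)
    nlinarith
  have hlN : 1 ≤ log (N : ℝ) := by
    rw [le_log_iff_exp_le (by linarith)]
    have := exp_one_lt_d9
    linarith
  have h9 : log p ≤ 6 * log N := by
    have ha : log p ≤ log (36 * (N : ℝ) ^ 2) := log_le_log (by linarith) h8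
    have hb : log (36 * (N : ℝ) ^ 2) = log 36 + 2 * log N := by
      rw [log_mul (by norm_num) (by positivity), log_pow]; norm_num
    have hc : log (36 : ℝ) ≤ 4 := by
      rw [log_le_iff_le_exp (by norm_num)]
      have h1 : (2.7 : ℝ) ≤ exp 1 := by have := exp_one_gt_d9; linarith
      have h2 : exp 4 = exp 1 ^ 4 := by rw [← exp_nat_mul]; norm_num
      rw [h2]
      calc (36 : ℝ) ≤ 2.7 ^ 4 := by norm_num
        _ ≤ exp 1 ^ 4 := by gcongr
    linarith
  calc (p : ℝ) ≤ 3 * N * log p := h4
    _ ≤ 3 * N * (6 * log N) := by gcongr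
    _ = 18 * N * log N := by ring

end Pool.Agent.Lib.MP_c81844_nt
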