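import Pool.Agent.Lib.MP_c81844_nt.Defs26

/-! Row StO: sums of a real character over odd numbers (helper26) -/

namespace Pool.Agent.Lib.MP_c81844_nt

open Finset

theorem o26_neg {r M : ℕ} (hD : Odd (r * M)) (hr : r.Prime) (hrM : ¬ r ∣ M) :
    ∃ a : ℕ, jacobiSym (a : ℤ) (r * M) = -1 := by
  haveI : Fact r.Prime := ⟨hr⟩
  have hr2 : r ≠ 2 := by
    rintro rfl
    exact (Nat.not_even_iff_odd.2 hD) (even_two_mul M)
  have hM0 : M ≠ 0 := by
    rintro rfl
    exact hrM (dvd_zero r)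
  haveI : NeZero M := ⟨hM0⟩
  haveI : NeZero r := ⟨hr.ne_zero⟩
  obtain ⟨u, hu⟩ := FiniteField.exists_nonsquare (F := ZMod r) (by
    rw [ZMod.ringChar_zmod_n]; exact hr2)
  have hco : r.Coprime M := (Nat.Prime.coprime_iff_not_dvd hr).2 hrM
  obtain ⟨a, ha1, ha2⟩ := Nat.chineseRemainder hco u.val 1
  refine ⟨a, ?_⟩
  rw [jacobiSym.mul_right]
  have e1 : jacobiSym (a : ℤ) r = -1 := by
    rw [← jacobiSym.legendreSym.to_jacobiSym, legendreSym.eq_neg_one_iff]
    have : ((a : ℤ) : ZMod r) = u := by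
      have h := (ZMod.natCast_eq_natCast_iff a u.val r).2 ha1
      rw [Int.cast_natCast, h, ZMod.natCast_zmod_val]
    rw [this]
    exact hu
  have e2 : jacobiSym (a : ℤ) M = 1 := by
    rw [jacobiSym.mod_left' (a₂ := 1) (by
      have := ha2
      unfold Nat.ModEq at this
      exact_mod_cast this), jacobiSym.one_left]
  rw [e1, e2, mul_one]

theorem o26_sum {D : ℕ} (hD : Odd D) (a : ℕ) (ha : jacobiSym (a : ℤ) D = -1) :
    ∑ j ∈ range D, jacobiSym ((2 * j + 1 : ℕ) : ℤ) D = 0 := by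
  classical
  haveI : NeZero D := ⟨by rintro rfl; exact absurd hD (by decide)⟩
  set g : ZMod D → ℤ := fun x => jacobiSym (x.val : ℤ) D with hg
  have hgn : ∀ n : ℕ, g (n : ZMod D) = jacobiSym (n : ℤ) D := by
    intro n
    simp only [hg]
    rw [ZMod.val_natCast, Int.natCast_mod, ← jacobiSym.mod_left]
  have h1 : ∑ j ∈ range D, jacobiSym ((2 * j + 1 : ℕ) : ℤ) D = ∑ x : ZMod D, g (2 * x + 1) := by
    refine Finset.sum_nbij' (fun j => (j : ZMod D)) (fun x => x.val) ?_ ?_ ?_ ?_ ?_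
    · intro j _; exact mem_univ _
    · intro x _; exact mem_range.2 (ZMod.val_lt x)
    · intro j hj
      exact ZMod.val_cast_of_lt (mem_range.1 hj)
    · intro x _
      exact ZMod.natCast_zmod_val x
    · intro j _
      rw [← hgn]
      congr 1
      push_cast
      ring
  have h2u : IsUnit (2 : ZMod D) := by
    have := (ZMod.isUnit_iff_coprime 2 D).2 ((Nat.coprime_two_left).2 hD)
    exact_mod_cast this
  have hau : IsUnit ((a : ℕ) : ZMod D) := by
    rw [ZMod.isUnit_iff_coprime]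
    by_contra h
    have : jacobiSym (a : ℤ) D = 0 := by
      rw [jacobiSym.eq_zero_iff_not_coprime]
      simpa [Nat.Coprime] using h
    rw [this] at ha
    norm_num at ha
  have h2 : ∑ x : ZMod D, g (2 * x + 1) = ∑ x : ZMod D, g x := by
    refine Function.Bijective.sum_comp (e := fun x : ZMod D => 2 * x + 1) ?_ g
    rw [← Finite.injective_iff_bijective]
    intro x y hxy
    exact h2u.mul_left_cancel (add_right_cancel hxy)
  have h3 : ∑ x : ZMod D, g ((a : ℕ) * x) = ∑ x : ZMod D, g x := by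
    refine Function.Bijective.sum_comp (e := fun x : ZMod D => ((a : ℕ) : ZMod D) * x) ?_ g
    rw [← Finite.injective_iff_bijective]
    intro x y hxy
    exact hau.mul_left_cancel hxy
  have h4 : ∀ x : ZMod D, g ((a : ℕ) * x) = - g x := by
    intro x
    obtain ⟨n, rfl⟩ : ∃ n : ℕ, (n : ZMod D) = x := ⟨x.val, ZMod.natCast_zmod_val x⟩
    rw [← Nat.cast_mul, hgn, hgn, Nat.cast_mul, jacobiSym.mul_left, ha]
    ring
  rw [h1, h2]
  rw [sum_congr rfl (fun x _ => h4 x), sum_neg_distrib] at h3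
  linarith

theorem o26_bound {D : ℕ} (hD : Odd D) (a : ℕ) (ha : jacobiSym (a : ℤ) D = -1) (X : ℕ) :
    |∑ j ∈ range X, jacobiSym ((2 * j + 1 : ℕ) : ℤ) D| ≤ (D : ℤ) := by
  induction X using Nat.strong_induction_on with
  | _ X ih =>
    rcases lt_or_ge X D with h | h
    · refine (abs_sum_le_sum_abs _ _).trans ?_
      have : ∑ j ∈ range X, |jacobiSym ((2 * j + 1 : ℕ) : ℤ) D| ≤ ∑ j ∈ range X, (1 : ℤ) := by
        refine sum_le_sum (fun j _ => ?_)
        rcases jacobiSym.trichotomy ((2 * j + 1 : ℕ) : ℤ) D with h | h | h <;> rw [h] <;> norm_num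
      refine this.trans ?_
      rw [sum_const, card_range, nsmul_eq_mul, mul_one]
      exact_mod_cast h.le
    · obtain ⟨Y, rfl⟩ := Nat.exists_eq_add_of_le h
      have hDpos : 0 < D := hD.pos
      rw [sum_range_add, o26_sum hD a ha, zero_add]
      have : ∀ j ∈ range Y, jacobiSym ((2 * (D + j) + 1 : ℕ) : ℤ) D =
          jacobiSym ((2 * j + 1 : ℕ) : ℤ) D := by
        intro j _
        refine jacobiSym.mod_left' ?_
        have : ((2 * (D + j) + 1 : ℕ) : ℤ) = ((2 * j + 1 : ℕ) : ℤ) + (D : ℤ) * 2 := by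
          push_cast; ring
        rw [this, Int.add_mul_emod_self_left]
      rw [sum_congr rfl this]
      exact ih Y (by omega)

theorem rowO26 : StO := by
  intro A A' hA hA' sA sA' hne X
  have key : ∀ B B' : ℕ, Odd B → Odd B' → Squarefree B → ∀ r : ℕ, r.Prime → r ∣ B → ¬ r ∣ B' →
      ∃ a : ℕ, jacobiSym (a : ℤ) (B * B') = -1 := by
    intro B B' hB hB' sB r hr hrB hrB'
    obtain ⟨M, rfl⟩ := hrB
    have h1 : ¬ r ∣ M * B' := by
      intro h
      rcases (Nat.Prime.dvd_mul hr).1 h with h | h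
      · obtain ⟨w, rfl⟩ := h
        have := sB r ⟨w, by ring⟩
        exact hr.one_lt.ne' (Nat.isUnit_iff.1 this)
      · exact hrB' h
    obtain ⟨a, ha⟩ := o26_neg (r := r) (M := M * B') (by rw [← mul_assoc]; exact hB.mul hB') hr h1
    exact ⟨a, by rw [mul_assoc]; exact ha⟩
  have h : ∃ a : ℕ, jacobiSym (a : ℤ) (A * A') = -1 := by
    by_contra hcon
    apply hne
    refine (Nat.Squarefree.ext_iff sA sA').2 (fun p hp => ⟨fun h1 => ?_, fun h1 => ?_⟩)
    · by_contra h2
      exact hcon (key A A' hA hA' sA p hp h1 h2)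
    · by_contra h2
      obtain ⟨a, ha⟩ := key A' A hA' hA sA' p hp h1 h2
      exact hcon ⟨a, by rw [mul_comm A A']; exact ha⟩
  obtain ⟨a, ha⟩ := h
  exact o26_bound (hA.mul hA') a ha X

end Pool.Agent.Lib.MP_c81844_nt
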