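import Pool.Agent.Lib.MP_c81844_nt.Defs26

/-! Row StQ: few `A` (from StO) -/

namespace Pool.Agent.Lib.MP_c81844_nt

open Finset

theorem chi4_sq33 (j : ℕ) : ZMod.χ₄ ((2 * j + 1 : ℕ) : ZMod 4) ^ 2 = 1 := by
  have h : (2 * j + 1) % 4 = 1 ∨ (2 * j + 1) % 4 = 3 := by omega
  rcases h with h | h
  · rw [ZMod.χ₄_nat_one_mod_four h, one_pow]
  · rw [ZMod.χ₄_nat_three_mod_four h]; norm_num

theorem row33Q (hO : StO) : StQ := by
  intro F T X S hF hS hone hT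
  classical
  have hpos : ∀ A ∈ F, A ≠ 0 := by
    intro A hA h0
    have := (hF A hA).1
    rw [h0] at this
    omega
  have h1 : ((F.card : ℤ) ^ 2 * S.card) ≤ ∑ j ∈ range X, (∑ A ∈ F,
      jacobiSym ((2 * j + 1 : ℕ) : ℤ) A * ZMod.χ₄ ((2 * j + 1 : ℕ) : ZMod 4)) ^ 2 := by
    calc ((F.card : ℤ) ^ 2 * S.card) = ∑ j ∈ S, (∑ A ∈ F,
          jacobiSym ((2 * j + 1 : ℕ) : ℤ) A * ZMod.χ₄ ((2 * j + 1 : ℕ) : ZMod 4)) ^ 2 := by
          have : ∀ j ∈ S, (∑ A ∈ F,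
              jacobiSym ((2 * j + 1 : ℕ) : ℤ) A * ZMod.χ₄ ((2 * j + 1 : ℕ) : ZMod 4)) ^ 2 =
              (F.card : ℤ) ^ 2 := by
            intro j hj
            rw [sum_congr rfl (fun A hA => hone A hA j hj)]
            simp
          rw [sum_congr rfl this, sum_const, nsmul_eq_mul]
          ring
      _ ≤ _ := sum_le_sum_of_subset_of_nonneg hS (fun j _ _ => sq_nonneg _)
  have h2 : ∑ j ∈ range X, (∑ A ∈ F,
      jacobiSym ((2 * j + 1 : ℕ) : ℤ) A * ZMod.χ₄ ((2 * j + 1 : ℕ) : ZMod 4)) ^ 2 =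
      ∑ A ∈ F, ∑ A' ∈ F, ∑ j ∈ range X, jacobiSym ((2 * j + 1 : ℕ) : ℤ) (A * A') := by
    have e1 : ∀ j ∈ range X, (∑ A ∈ F,
        jacobiSym ((2 * j + 1 : ℕ) : ℤ) A * ZMod.χ₄ ((2 * j + 1 : ℕ) : ZMod 4)) ^ 2 =
        ∑ A ∈ F, ∑ A' ∈ F, jacobiSym ((2 * j + 1 : ℕ) : ℤ) (A * A') := by
      intro j _
      rw [sq, sum_mul_sum]
      refine sum_congr rfl (fun A hA => sum_congr rfl (fun A' hA' => ?_))
      haveI : NeZero A := ⟨hpos A hA⟩
      haveI : NeZero A' := ⟨hpos A' hA'⟩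
      rw [jacobiSym.mul_right]
      linear_combination (jacobiSym ((2 * j + 1 : ℕ) : ℤ) A *
        jacobiSym ((2 * j + 1 : ℕ) : ℤ) A') * chi4_sq33 j
    rw [sum_congr rfl e1, sum_comm]
    exact sum_congr rfl (fun A _ => sum_comm)
  have h3 : ∀ A ∈ F, ∀ A' ∈ F, ∑ j ∈ range X, jacobiSym ((2 * j + 1 : ℕ) : ℤ) (A * A') ≤
      (if A = A' then (X : ℤ) else 0) + (T : ℤ) ^ 2 := by
    intro A hA A' hA'
    by_cases h : A = A'
    · rw [if_pos h]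
      have e1 : ∑ j ∈ range X, jacobiSym ((2 * j + 1 : ℕ) : ℤ) (A * A') ≤
          ∑ j ∈ range X, (1 : ℤ) := by
        refine sum_le_sum (fun j _ => ?_)
        rcases jacobiSym.trichotomy ((2 * j + 1 : ℕ) : ℤ) (A * A') with h | h | h <;> rw [h] <;>
          norm_num
      rw [sum_const, card_range, nsmul_eq_mul, mul_one] at e1
      nlinarith [sq_nonneg (T : ℤ)]
    · rw [if_neg h, zero_add]
      obtain ⟨a1, a2, a3⟩ := hF A hA
      obtain ⟨b1, b2, b3⟩ := hF A' hA'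
      have e1 := hO A A' (Nat.odd_iff.2 (by omega)) (Nat.odd_iff.2 (by omega)) a2 b2 h X
      have e2 := (le_abs_self _).trans e1
      have e3 : ((A * A' : ℕ) : ℤ) ≤ (T : ℤ) ^ 2 := by
        have := Nat.mul_le_mul a3 b3
        rw [sq]
        exact_mod_cast this
      exact e2.trans e3
  have h4 : ∑ A ∈ F, ∑ A' ∈ F, ∑ j ∈ range X, jacobiSym ((2 * j + 1 : ℕ) : ℤ) (A * A') ≤
      (F.card : ℤ) * X + (F.card : ℤ) ^ 2 * (T : ℤ) ^ 2 := by
    calc ∑ A ∈ F, ∑ A' ∈ F, ∑ j ∈ range X, jacobiSym ((2 * j + 1 : ℕ) : ℤ) (A * A')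
        ≤ ∑ A ∈ F, ∑ A' ∈ F, ((if A = A' then (X : ℤ) else 0) + (T : ℤ) ^ 2) :=
          sum_le_sum (fun A hA => sum_le_sum (fun A' hA' => h3 A hA A' hA'))
      _ = ∑ A ∈ F, ((X : ℤ) + F.card * (T : ℤ) ^ 2) := by
          refine sum_congr rfl (fun A hA => ?_)
          rw [sum_add_distrib, sum_ite_eq, if_pos hA, sum_const, nsmul_eq_mul]
      _ = _ := by
          rw [sum_const, nsmul_eq_mul]
          ring
  have h5 : ((F.card : ℤ) ^ 2 * S.card) ≤ (F.card : ℤ) * X + (F.card : ℤ) ^ 2 * (T : ℤ) ^ 2 :=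
    h1.trans (h2.le.trans h4)
  have hT' : 2 * (T : ℤ) ^ 2 ≤ S.card := by exact_mod_cast hT
  rcases Nat.eq_zero_or_pos F.card with h0 | h0
  · rw [h0, Nat.zero_mul]; exact Nat.zero_le _
  · have hc : (0 : ℤ) < F.card := by exact_mod_cast h0
    have h6 : (F.card : ℤ) * ((F.card : ℤ) * S.card) ≤ (F.card : ℤ) * (2 * X) := by
      nlinarith [mul_le_mul_of_nonneg_left hT' (sq_nonneg (F.card : ℤ))]
    have h7 := le_of_mul_le_mul_left h6 hc
    exact_mod_cast h7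

end Pool.Agent.Lib.MP_c81844_nt
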