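import Pool.Agent.Lib.MP_c81844_nt.Defs26

/-! Row StS: multiplicativity -/

namespace Pool.Agent.Lib.MP_c81844_nt

theorem row33 : StS := by
  intro A y h m
  induction m using Nat.recOnMul with
  | zero => intro hm; exact absurd hm (by decide)
  | one => intro _ _; simp
  | prime p hp =>
    intro hm hy
    exact h p hp (by rintro rfl; exact absurd hm (by decide)) (hy p hp dvd_rfl)
  | mul a b iha ihb =>
    intro hm hy
    obtain ⟨ha, hb⟩ := Nat.odd_mul.1 hm
    have e1 := iha ha (fun p hp hd => hy p hp (hd.mul_right b))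
    have e2 := ihb hb (fun p hp hd => hy p hp (hd.mul_left a))
    have : jacobiSym ((a * b : ℕ) : ℤ) A * ZMod.χ₄ ((a * b : ℕ) : ZMod 4) =
        (jacobiSym (a : ℤ) A * ZMod.χ₄ (a : ZMod 4)) *
          (jacobiSym (b : ℤ) A * ZMod.χ₄ (b : ZMod 4)) := by
      push_cast
      rw [jacobiSym.mul_left, map_mul]
      ring
    rw [this, e1, e2, one_mul]

end Pool.Agent.Lib.MP_c81844_nt
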