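import Pool.Agent.Lib.MP_c81844_nt.A9
import Pool.Agent.Lib.MP_c81844_nt.StS33
import Pool.Agent.Lib.MP_c81844_nt.StQ33
import Pool.Agent.Lib.MP_c81844_nt.O26
import Pool.Agent.Lib.MP_c81844_nt.M2_82
import Pool.Agent.Lib.MP_c81844_nt.N84
import Pool.Agent.Lib.MP_c81844_nt.F2_26
import Pool.Agent.Lib.MP_c81844_nt.A1
import Pool.Agent.Lib.MP_c81844_nt.Avg7

/-! Assembly (helper26): all rows. -/

namespace Pool.Agent.Lib.MP_c81844_nt

theorem allM2 : StM2 := rowM2_82 rowM26 rown84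

theorem allF2 : StF2 := rowF2_26 A9.rowA9 row33 (row33Q rowO26) allM2

end Pool.Agent.Lib.MP_c81844_nt
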