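import Pool.Agent.Lib.MP_c81844_nt.Defs26

namespace Pool.Agent.Lib.MP_c81844_nt

open Finset

theorem rowF1_13 (hA : StA) (hS : StS) (hV1 : StV1) (hV2 : StV2) : StF1 := by
  obtain ⟨c, hc, hV⟩ := hV2
  have hs : Real.sqrt (Real.exp 1) ≤ 2 := by
    rw [show (2 : ℝ) = Real.sqrt (2 ^ 2) by rw [Real.sqrt_sq (by norm_num)]]
    apply Real.sqrt_le_sqrt
    have := Real.exp_one_lt_d9
    linarith
  refine ⟨min c (1 / 2), lt_min hc (by norm_num), fun n A B h => ?_⟩
  set y := Nat.nth Nat.Prime n with hy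
  have hyp : y.Prime := Nat.prime_nth_prime n
  have hy2 : 2 ≤ y := hyp.two_le
  have hy1 : (1 : ℝ) ≤ y := by exact_mod_cast hyp.one_le
  have hpow : (y : ℝ) ^ Real.sqrt (Real.exp 1) ≤ (y : ℝ) ^ (2 : ℝ) :=
    Real.rpow_le_rpow_of_exponent_le hy1 hs
  have hpow0 : 0 ≤ (y : ℝ) ^ Real.sqrt (Real.exp 1) := by positivity
  have hpow2 : (y : ℝ) ^ Real.sqrt (Real.exp 1) ≤ (y : ℝ) ^ 2 := hpow.trans_eq (Real.rpow_two _)
  rcases Nat.eq_zero_or_pos n with hn | hn
  · subst hn
    have hy' : y = 2 := by rw [hy]; exact Nat.nth_prime_zero_eq_two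
    have hE : E 0 = 2 := by simp [E, P]
    have hB : B = 1 := by
      rw [hE] at h
      have h1 : B ^ 2 ∣ 2 := Dvd.intro_left A h.symm
      have h3 : B ^ 2 ≤ 2 := Nat.le_of_dvd (by norm_num) h1
      have h4 : B ≤ 1 := by nlinarith
      interval_cases B
      · simp at h
      · rfl
    have hA2 : A = 2 := by rw [hE, hB] at h; omega
    rw [hA2]
    have h5 : (y : ℝ) ^ 2 = 4 := by rw [hy']; norm_num
    calc min c (1 / 2) * (y : ℝ) ^ Real.sqrt (Real.exp 1)
        ≤ (1 / 2) * 4 := mul_le_mul (min_le_right _ _) (hpow2.trans_eq h5) hpow0 (by norm_num)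
      _ = ((2 : ℕ) : ℝ) := by norm_num
  · obtain ⟨h4, hq, hr⟩ := hA n A B hn h
    rcases Nat.lt_or_ge A (y ^ 2) with hlt | hge
    · have hA1 : A ≠ 1 := by omega
      have hA0 : 0 < A := by omega
      have hprime : A.Prime := by
        by_contra hnp
        have h6 : A.minFac ^ 2 ≤ A := Nat.minFac_sq_le_self hA0 hnp
        have h7 : y ≤ A.minFac := hq _ (Nat.minFac_prime hA1) (Nat.minFac_dvd A)
        have h8 : y ^ 2 ≤ A.minFac ^ 2 := Nat.pow_le_pow_left h7 2
        omega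
      have hyA : y ≤ A := hq A hprime dvd_rfl
      have h9 := hV1 A y hprime h4 (fun m hm hmp => by
        refine hS A (y - 1) (fun r hr1 hr2 hr3 => ?_) m hm (fun p hp hpm => ?_)
        · refine hr r hr1 hr2 ?_
          omega
        · have := hmp p hp hpm
          omega)
      have h10 := hV A y hy2 hyA h9
      calc min c (1 / 2) * (y : ℝ) ^ Real.sqrt (Real.exp 1)
          ≤ c * (y : ℝ) ^ Real.sqrt (Real.exp 1) :=
            mul_le_mul_of_nonneg_right (min_le_left _ _) hpow0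
        _ ≤ A := h10
    · have h11 : ((y ^ 2 : ℕ) : ℝ) ≤ A := by exact_mod_cast hge
      calc min c (1 / 2) * (y : ℝ) ^ Real.sqrt (Real.exp 1)
          ≤ 1 * (y : ℝ) ^ 2 := by
            refine mul_le_mul ?_ hpow2 hpow0 (by norm_num)
            exact (min_le_right _ _).trans (by norm_num)
        _ ≤ A := by push_cast at h11; linarith

end Pool.Agent.Lib.MP_c81844_nt
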