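import Pool.Agent.Lib.MP_c81844_nt.Defs26

/-! ROW M (helper26): one prime divides few Euclid numbers. -/

namespace Pool.Agent.Lib.MP_c81844_nt

open Finset

namespace M26

lemma inf : (Set.ofPred Nat.Prime).Infinite := Nat.infinite_setOfPred_prime

lemma pn_prime (n : ℕ) : (Nat.nth Nat.Prime n).Prime := Nat.prime_nth_prime n

lemma pn_lt {m n : ℕ} (h : m < n) : Nat.nth Nat.Prime m < Nat.nth Nat.Prime n :=
  Nat.nth_strictMono inf h

lemma pn_le {m n : ℕ} (h : m ≤ n) : Nat.nth Nat.Prime m ≤ Nat.nth Nat.Prime n :=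
  (Nat.nth_strictMono inf).monotone h

/-- a prime below the `n`-th one divides the product -/
lemma dvd_P {r n : ℕ} (hr : r.Prime) (h : r < Nat.nth Nat.Prime n) : r ∣ P n := by
  have h1 : Nat.nth Nat.Prime (Nat.count Nat.Prime r) = r := Nat.nth_count hr
  have h2 : Nat.count Nat.Prime r < n := by
    by_contra h3
    have := pn_le (not_lt.1 h3)
    omega
  rw [← h1]
  exact Finset.dvd_prod_of_mem _ (Finset.mem_range.2 h2)

lemma le_of_dvd_E {q n : ℕ} (hq : q.Prime) (h : q ∣ E n) : Nat.nth Nat.Prime n ≤ q := by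
  by_contra h1
  have h2 := dvd_P hq (not_le.1 h1)
  have h3 : q ∣ 1 := by
    unfold E at h
    exact (Nat.dvd_add_left h2).1 h
  exact hq.one_lt.ne' (Nat.dvd_one.1 h3)

lemma P_add (n k : ℕ) : P (n + k) = P n * ∏ t ∈ range k, Nat.nth Nat.Prime (n + t) := by
  unfold P
  rw [Finset.prod_range_add]

lemma prod_one {q n k : ℕ} (h1 : q ∣ E n) (h2 : q ∣ E (n + k)) :
    ∏ t ∈ range k, ((Nat.nth Nat.Prime (n + t) : ℕ) : ZMod q) = 1 := by
  have h3 : ((E n : ℕ) : ZMod q) = 0 := (ZMod.natCast_eq_zero_iff _ _).2 h1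
  have h4 : ((E (n + k) : ℕ) : ZMod q) = 0 := (ZMod.natCast_eq_zero_iff _ _).2 h2
  unfold E at h3 h4
  rw [P_add] at h4
  push_cast at h3 h4
  have h5 : ((P n : ℕ) : ZMod q) = -1 := by linear_combination h3
  rw [h5] at h4
  linear_combination (-1 : ZMod q) * h4

/-- few roots -/
lemma roots_card {q k : ℕ} (hq : q.Prime) (hk : 1 ≤ k) (g : ℕ → ℕ) (s : Finset (ZMod q))
    (hs : ∀ x ∈ s, ∏ t ∈ range k, (x + (g t : ZMod q)) = 1) : s.card ≤ k := by
  have : Fact q.Prime := ⟨hq⟩
  set R : Polynomial (ZMod q) := ∏ t ∈ range k, (Polynomial.X + Polynomial.C (g t : ZMod q)) with hR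
  have hm : R.Monic := Polynomial.monic_prod_of_monic _ _ fun t _ => Polynomial.monic_X_add_C _
  have hd : R.natDegree = k := by
    rw [hR, Polynomial.natDegree_prod_of_monic _ _ fun t _ => Polynomial.monic_X_add_C _]
    rw [Finset.sum_congr rfl fun t _ => Polynomial.natDegree_X_add_C _]
    simp
  have hd2 : (R - 1).natDegree = k := by
    rw [← hd]
    have : (R - 1 : Polynomial (ZMod q)) = R - Polynomial.C 1 := by simp
    rw [this, Polynomial.natDegree_sub_C]
  have h0 : (R - 1 : Polynomial (ZMod q)) ≠ 0 := by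
    intro h
    rw [h] at hd2
    simp at hd2
    omega
  have hsub : s ⊆ (R - 1 : Polynomial (ZMod q)).roots.toFinset := by
    intro x hx
    rw [Multiset.mem_toFinset, Polynomial.mem_roots h0, Polynomial.IsRoot.def]
    rw [Polynomial.eval_sub, hR, Polynomial.eval_prod]
    simp only [Polynomial.eval_add, Polynomial.eval_X, Polynomial.eval_C, Polynomial.eval_one]
    rw [hs x hx, sub_self]
  calc s.card ≤ (R - 1 : Polynomial (ZMod q)).roots.toFinset.card := Finset.card_le_card hsub
    _ ≤ Multiset.card (R - 1 : Polynomial (ZMod q)).roots := Multiset.toFinset_card_le _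
    _ ≤ (R - 1 : Polynomial (ZMod q)).natDegree := Polynomial.card_roots' _
    _ = k := hd2

/-- disjoint intervals -/
lemma card_mul_le (s : Finset ℕ) (f : ℕ → ℕ) (L M : ℕ)
    (h1 : ∀ n ∈ s, ∀ m ∈ s, n < m → f n + L ≤ f m) (h2 : ∀ n ∈ s, f n + L ≤ M) :
    s.card * L ≤ M := by
  have hdis : (s : Set ℕ).PairwiseDisjoint (fun n => Finset.Ico (f n) (f n + L)) := by
    intro n hn m hm hnm
    rw [Function.onFun, Finset.disjoint_left]
    intro a ha hb
    rw [Finset.mem_Ico] at ha hb
    rcases lt_or_gt_of_ne hnm with h | h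
    · have := h1 n hn m hm h; omega
    · have := h1 m hm n hn h; omega
  have hc : (s.biUnion fun n => Finset.Ico (f n) (f n + L)).card = s.card * L := by
    rw [Finset.card_biUnion (fun n hn m hm h => hdis hn hm h)]
    simp
  rw [← hc]
  calc (s.biUnion fun n => Finset.Ico (f n) (f n + L)).card ≤ (range M).card := by
        apply Finset.card_le_card
        intro a ha
        rw [Finset.mem_biUnion] at ha
        obtain ⟨n, hn, ha⟩ := ha
        rw [Finset.mem_Ico] at ha
        rw [Finset.mem_range]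
        have := h2 n hn
        omega
    _ = M := Finset.card_range M

end M26

open M26 in
theorem rowM26 : StM := by
  classical
  intro q N K H hq hK hH
  set T := (range N).filter (fun n => q ∣ E n) with hT
  have memT : ∀ n, n ∈ T ↔ n < N ∧ q ∣ E n := fun n => by rw [hT, Finset.mem_filter, Finset.mem_range]
  set T' := T.filter (fun n => ∃ k, 1 ≤ k ∧ n + k ∈ T) with hT'
  have hcardT : T.card ≤ 1 + T'.card := by
    have : (T.filter (fun n => ¬ ∃ k, 1 ≤ k ∧ n + k ∈ T)).card ≤ 1 := by
      rw [Finset.card_le_one]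
      intro a ha b hb
      rw [Finset.mem_filter] at ha hb
      by_contra hab
      rcases lt_or_gt_of_ne hab with h | h
      · exact ha.2 ⟨b - a, by omega, by rw [Nat.add_sub_cancel' h.le]; exact hb.1⟩
      · exact hb.2 ⟨a - b, by omega, by rw [Nat.add_sub_cancel' h.le]; exact ha.1⟩
    have h2 := Finset.card_filter_add_card_filter_not (s := T) (fun n => ∃ k, 1 ≤ k ∧ n + k ∈ T)
    rw [← hT'] at h2
    omega
  -- the next element
  let kk : ℕ → ℕ := fun n => if h : ∃ k, 1 ≤ k ∧ n + k ∈ T then Nat.find h else 0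
  have kk_spec : ∀ n ∈ T', 1 ≤ kk n ∧ n + kk n ∈ T := by
    intro n hn
    have h := (Finset.mem_filter.1 hn).2
    simp only [kk, dif_pos h]
    exact Nat.find_spec h
  have kk_min : ∀ n ∈ T', ∀ m ∈ T, n < m → n + kk n ≤ m := by
    intro n hn m hm hnm
    have h := (Finset.mem_filter.1 hn).2
    simp only [kk, dif_pos h]
    have : Nat.find h ≤ m - n := Nat.find_min' h ⟨by omega, by rw [Nat.add_sub_cancel' hnm.le]; exact hm⟩
    omega
  have hsubT : ∀ n ∈ T', n ∈ T := fun n hn => (Finset.mem_filter.1 hn).1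
  set Ta := T'.filter (fun n => K < kk n) with hTa
  set Tb := T'.filter (fun n => kk n ≤ K ∧
    H ≤ Nat.nth Nat.Prime (n + kk n - 1) - Nat.nth Nat.Prime n) with hTb
  set Tc := T'.filter (fun n => kk n ≤ K ∧
    ¬ (H ≤ Nat.nth Nat.Prime (n + kk n - 1) - Nat.nth Nat.Prime n)) with hTc
  have hcover : T' ⊆ Ta ∪ Tb ∪ Tc := by
    intro n hn
    rw [Finset.mem_union, Finset.mem_union]
    by_cases h1 : K < kk n
    · exact Or.inl (Or.inl (Finset.mem_filter.2 ⟨hn, h1⟩))
    · by_cases h2 : H ≤ Nat.nth Nat.Prime (n + kk n - 1) - Nat.nth Nat.Prime n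
      · exact Or.inl (Or.inr (Finset.mem_filter.2 ⟨hn, not_lt.1 h1, h2⟩))
      · exact Or.inr (Finset.mem_filter.2 ⟨hn, not_lt.1 h1, h2⟩)
  have ha : Ta.card ≤ N / K := by
    rw [Nat.le_div_iff_mul_le (by omega)]
    apply card_mul_le Ta (fun n => n) K N
    · intro n hn m hm hnm
      rw [hTa, Finset.mem_filter] at hn hm
      have := kk_min n hn.1 m (hsubT m hm.1) hnm
      omega
    · intro n hn
      rw [hTa, Finset.mem_filter] at hn
      have := ((memT _).1 (kk_spec n hn.1).2).1
      omega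
  have hb : Tb.card ≤ Nat.nth Nat.Prime N / H := by
    rw [Nat.le_div_iff_mul_le (by omega)]
    apply card_mul_le Tb (fun n => Nat.nth Nat.Prime n) H
    · intro n hn m hm hnm
      rw [hTb, Finset.mem_filter] at hn hm
      have h1 := kk_min n hn.1 m (hsubT m hm.1) hnm
      have h2 := (kk_spec n hn.1).1
      have h3 : Nat.nth Nat.Prime (n + kk n - 1) ≤ Nat.nth Nat.Prime m := pn_le (by omega)
      have h4 : Nat.nth Nat.Prime n ≤ Nat.nth Nat.Prime (n + kk n - 1) := pn_le (by omega)
      have h5 := hn.2.2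
      show Nat.nth Nat.Prime n + H ≤ Nat.nth Nat.Prime m
      omega
    · intro n hn
      rw [hTb, Finset.mem_filter] at hn
      have h1 := ((memT _).1 (kk_spec n hn.1).2).1
      have h3 : Nat.nth Nat.Prime (n + kk n - 1) ≤ Nat.nth Nat.Prime N := pn_le (by omega)
      have h2 := (kk_spec n hn.1).1
      have h4 : Nat.nth Nat.Prime n ≤ Nat.nth Nat.Prime (n + kk n - 1) := pn_le (by omega)
      have h5 := hn.2.2
      show Nat.nth Nat.Prime n + H ≤ Nat.nth Nat.Prime N
      omega
  have hc : Tc.card ≤ (K + 1) * K * H ^ K := by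
    let Phi : ℕ → ℕ × (Fin K → ℕ) := fun n => (kk n, fun t =>
      if t.1 < kk n then Nat.nth Nat.Prime (n + t.1) - Nat.nth Nat.Prime n else 0)
    have himg : Tc.image Phi ⊆ (range (K + 1)) ×ˢ (Fintype.piFinset fun _ : Fin K => range H) := by
      intro a ha
      rw [Finset.mem_image] at ha
      obtain ⟨n, hn, rfl⟩ := ha
      rw [hTc, Finset.mem_filter] at hn
      rw [Finset.mem_product, Finset.mem_range, Fintype.mem_piFinset]
      refine ⟨by show kk n < K + 1; omega, fun t => ?_⟩
      rw [Finset.mem_range]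
      show (if t.1 < kk n then Nat.nth Nat.Prime (n + t.1) - Nat.nth Nat.Prime n else 0) < H
      split_ifs with h
      · have h1 : Nat.nth Nat.Prime (n + t.1) ≤ Nat.nth Nat.Prime (n + kk n - 1) := pn_le (by omega)
        have h2 := hn.2.2
        omega
      · omega
    have hcard : (Tc.image Phi).card ≤ (K + 1) * H ^ K := by
      refine (Finset.card_le_card himg).trans ?_
      rw [Finset.card_product, Finset.card_range, Fintype.card_piFinset]
      simp
    have hfib : ∀ a ∈ Tc.image Phi, (Tc.filter (fun n => Phi n = a)).card ≤ K := by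
      intro a ha
      rw [Finset.mem_image] at ha
      obtain ⟨n0, hn0, rfl⟩ := ha
      have hn0' := hn0
      rw [hTc, Finset.mem_filter] at hn0'
      set g : ℕ → ℕ := fun t => Nat.nth Nat.Prime (n0 + t) - Nat.nth Nat.Prime n0 with hg
      set S := (Tc.filter (fun n => Phi n = Phi n0)).image
        (fun n => ((Nat.nth Nat.Prime n : ℕ) : ZMod q)) with hS
      have hlt : ∀ n ∈ Tc, Nat.nth Nat.Prime n < q := by
        intro n hn
        rw [hTc, Finset.mem_filter] at hn
        have h1 := kk_spec n hn.1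
        have h2 := le_of_dvd_E hq ((memT _).1 h1.2).2
        have h3 := pn_lt (m := n) (n := n + kk n) (by omega)
        omega
      have hinj : Set.InjOn (fun n => ((Nat.nth Nat.Prime n : ℕ) : ZMod q))
          (Tc.filter (fun n => Phi n = Phi n0) : Finset ℕ) := by
        intro n hn m hm h
        have hn1 := hlt n (Finset.mem_filter.1 (Finset.mem_coe.1 hn)).1
        have hm1 := hlt m (Finset.mem_filter.1 (Finset.mem_coe.1 hm)).1
        have h' : ((Nat.nth Nat.Prime n : ℕ) : ZMod q) = ((Nat.nth Nat.Prime m : ℕ) : ZMod q) := h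
        rw [ZMod.natCast_eq_natCast_iff'] at h'
        rw [Nat.mod_eq_of_lt hn1, Nat.mod_eq_of_lt hm1] at h'
        exact (Nat.nth_strictMono inf).injective h'
      rw [← Finset.card_image_of_injOn hinj]
      refine (roots_card hq (kk_spec n0 hn0'.1).1 g _ ?_).trans hn0'.2.1
      intro x hx
      rw [Finset.mem_image] at hx
      obtain ⟨n, hn, rfl⟩ := hx
      rw [Finset.mem_filter] at hn
      have hnT := hn.1
      rw [hTc, Finset.mem_filter] at hnT
      have hk : kk n = kk n0 := congrArg Prod.fst hn.2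
      have hgg : ∀ t, t < kk n0 → g t = Nat.nth Nat.Prime (n + t) - Nat.nth Nat.Prime n := by
        intro t ht
        have h1 := congrFun (congrArg Prod.snd hn.2) ⟨t, by omega⟩
        have h2 : (if t < kk n then Nat.nth Nat.Prime (n + t) - Nat.nth Nat.Prime n else 0) =
            (if t < kk n0 then Nat.nth Nat.Prime (n0 + t) - Nat.nth Nat.Prime n0 else 0) := h1
        rw [if_pos (by omega), if_pos ht] at h2
        rw [hg]
        exact h2.symm
      have hp := prod_one (q := q) (n := n) (k := kk n) ((memT _).1 (hsubT n hnT.1)).2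
        ((memT _).1 (kk_spec n hnT.1).2).2
      rw [hk] at hp
      rw [← hp]
      apply Finset.prod_congr rfl
      intro t ht
      rw [Finset.mem_range] at ht
      rw [hgg t ht]
      have h1 : Nat.nth Nat.Prime n ≤ Nat.nth Nat.Prime (n + t) := pn_le (by omega)
      rw [Nat.cast_sub h1]
      ring
    calc Tc.card ≤ K * (Tc.image Phi).card := Finset.card_le_mul_card_image Tc K hfib
      _ ≤ K * ((K + 1) * H ^ K) := Nat.mul_le_mul_left _ hcard
      _ = (K + 1) * K * H ^ K := by ring
  have h1 : T'.card ≤ Ta.card + Tb.card + Tc.card :=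
    (Finset.card_le_card hcover).trans ((Finset.card_union_le _ _).trans
      (Nat.add_le_add_right (Finset.card_union_le _ _) _))
  omega

end Pool.Agent.Lib.MP_c81844_nt
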