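import Mathlib
import Pool.Agent.Lib.MP_c81844_nt.Defs26

/-! Row Q of MP_c81844 (helper90): few moduli `A`, from the character sums of row O. -/

namespace Pool.Agent.Lib.MP_c81844_nt

open Finset

namespace Q90

/-- the character of the modulus `A` at the odd number `2 j + 1` -/
noncomputable def f (A j : ℕ) : ℤ :=
  jacobiSym ((2 * j + 1 : ℕ) : ℤ) A * ZMod.χ₄ ((2 * j + 1 : ℕ) : ZMod 4)

theorem chi_sq (j : ℕ) :
    ZMod.χ₄ ((2 * j + 1 : ℕ) : ZMod 4) * ZMod.χ₄ ((2 * j + 1 : ℕ) : ZMod 4) = 1 := by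
  rw [ZMod.χ₄_nat_eq_if_mod_four]
  have h : (2 * j + 1) % 2 ≠ 0 := by omega
  rw [if_neg h]
  split_ifs <;> norm_num

theorem f_sq_le (A j : ℕ) : f A j * f A j ≤ 1 := by
  unfold f
  have h := chi_sq j
  rcases jacobiSym.trichotomy ((2 * j + 1 : ℕ) : ℤ) A with h0 | h0 | h0 <;> rw [h0] <;> nlinarith

theorem f_mul {A A' : ℕ} (hA : Odd A) (hA' : Odd A') (j : ℕ) :
    f A j * f A' j = jacobiSym ((2 * j + 1 : ℕ) : ℤ) (A * A') := by
  unfold f
  have h := chi_sq j
  have : NeZero A := ⟨hA.pos.ne'⟩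
  have : NeZero A' := ⟨hA'.pos.ne'⟩
  rw [jacobiSym.mul_right]
  linear_combination (jacobiSym ((2 * j + 1 : ℕ) : ℤ) A * jacobiSym ((2 * j + 1 : ℕ) : ℤ) A') * h

end Q90

open Q90 in
/-- ROW Q -/
theorem rowQ90 (O : StO) : StQ := by
  intro F T X S hF hS hval hT
  have hodd : ∀ A ∈ F, Odd A := by
    intro A hA
    have := (hF A hA).1
    exact Nat.odd_iff.2 (by omega)
  -- lower bound
  have h1 : ((F.card : ℤ) * F.card) * S.card ≤ ∑ j ∈ range X, (∑ A ∈ F, f A j) * (∑ A ∈ F, f A j) := by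
    have h2 : ∑ j ∈ S, (∑ A ∈ F, f A j) * (∑ A ∈ F, f A j) = ((F.card : ℤ) * F.card) * S.card := by
      have h3 : ∀ j ∈ S, (∑ A ∈ F, f A j) * (∑ A ∈ F, f A j) = (F.card : ℤ) * F.card := by
        intro j hj
        have h4 : ∑ A ∈ F, f A j = (F.card : ℤ) := by
          have hv : ∀ A ∈ F, f A j = 1 := fun A hA => hval A hA j hj
          rw [Finset.sum_congr rfl hv]
          simp
        rw [h4]
      rw [Finset.sum_congr rfl h3, Finset.sum_const, nsmul_eq_mul]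
      ring
    rw [← h2]
    exact Finset.sum_le_sum_of_subset_of_nonneg hS (fun j _ _ => mul_self_nonneg _)
  -- upper bound
  have h5 : ∑ j ∈ range X, (∑ A ∈ F, f A j) * (∑ A ∈ F, f A j)
      = ∑ A ∈ F, ∑ A' ∈ F, ∑ j ∈ range X, f A j * f A' j := by
    calc ∑ j ∈ range X, (∑ A ∈ F, f A j) * (∑ A ∈ F, f A j)
        = ∑ j ∈ range X, ∑ A ∈ F, ∑ A' ∈ F, f A j * f A' j := by
          refine Finset.sum_congr rfl (fun j _ => ?_)
          rw [Finset.sum_mul_sum]
      _ = ∑ A ∈ F, ∑ j ∈ range X, ∑ A' ∈ F, f A j * f A' j := Finset.sum_comm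
      _ = _ := by
          refine Finset.sum_congr rfl (fun A _ => ?_)
          exact Finset.sum_comm
  have h6 : ∀ A ∈ F, ∑ A' ∈ F, ∑ j ∈ range X, f A j * f A' j ≤ (X : ℤ) + F.card * ((T : ℤ) * T) := by
    intro A hA
    have h7 : ∀ A' ∈ F, ∑ j ∈ range X, f A j * f A' j ≤ (if A' = A then (X : ℤ) else 0) + (T : ℤ) * T := by
      intro A' hA'
      by_cases hAA : A' = A
      · rw [if_pos hAA, hAA]
        have h8 : ∑ j ∈ range X, f A j * f A j ≤ ∑ j ∈ range X, (1 : ℤ) :=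
          Finset.sum_le_sum (fun j _ => f_sq_le A j)
        have h9 : ∑ j ∈ range X, (1 : ℤ) = X := by simp
        have h10 : (0 : ℤ) ≤ (T : ℤ) * T := mul_self_nonneg _
        linarith
      · rw [if_neg hAA]
        have h8 : ∑ j ∈ range X, f A j * f A' j
            = ∑ j ∈ range X, jacobiSym ((2 * j + 1 : ℕ) : ℤ) (A * A') :=
          Finset.sum_congr rfl (fun j _ => f_mul (hodd A hA) (hodd A' hA') j)
        have h9 := O A A' (hodd A hA) (hodd A' hA') (hF A hA).2.1 (hF A' hA').2.1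
          (fun h => hAA h.symm) X
        have h10 : ((A * A' : ℕ) : ℤ) ≤ (T : ℤ) * T := by
          have h11 : A * A' ≤ T * T := Nat.mul_le_mul (hF A hA).2.2 (hF A' hA').2.2
          exact_mod_cast h11
        have h12 := le_abs_self (∑ j ∈ range X, jacobiSym ((2 * j + 1 : ℕ) : ℤ) (A * A'))
        rw [h8]
        linarith
    have h13 := Finset.sum_le_sum h7
    have h14 : ∑ A' ∈ F, ((if A' = A then (X : ℤ) else 0) + (T : ℤ) * T)
        = (X : ℤ) + F.card * ((T : ℤ) * T) := by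
      rw [Finset.sum_add_distrib, Finset.sum_ite_eq' F A (fun _ => (X : ℤ)), if_pos hA,
        Finset.sum_const, nsmul_eq_mul]
    rw [h14] at h13
    exact h13
  have h15 : ∑ A ∈ F, ∑ A' ∈ F, ∑ j ∈ range X, f A j * f A' j
      ≤ (F.card : ℤ) * ((X : ℤ) + F.card * ((T : ℤ) * T)) := by
    have h16 := Finset.sum_le_sum h6
    rw [Finset.sum_const, nsmul_eq_mul] at h16
    exact h16
  have h17 : ((F.card : ℤ) * F.card) * S.card ≤ (F.card : ℤ) * ((X : ℤ) + F.card * ((T : ℤ) * T)) := by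
    rw [h5] at h1
    exact h1.trans h15
  by_cases hF0 : F.card = 0
  · rw [hF0]; omega
  have hFpos : (0 : ℤ) < F.card := by exact_mod_cast Nat.pos_of_ne_zero hF0
  have h18 : (F.card : ℤ) * S.card ≤ (X : ℤ) + F.card * ((T : ℤ) * T) := by
    have h19 : (F.card : ℤ) * ((F.card : ℤ) * S.card) ≤ (F.card : ℤ) * ((X : ℤ) + F.card * ((T : ℤ) * T)) := by
      linarith [h17, mul_assoc (F.card : ℤ) F.card S.card]
    exact le_of_mul_le_mul_left h19 hFpos
  have h20 : (2 : ℤ) * ((T : ℤ) * T) ≤ S.card := by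
    have h21 : (2 : ℤ) * (T : ℤ) ^ 2 ≤ S.card := by exact_mod_cast hT
    nlinarith
  have h22 : (F.card : ℤ) * (2 * ((T : ℤ) * T)) ≤ F.card * S.card :=
    mul_le_mul_of_nonneg_left h20 hFpos.le
  have h23 : (F.card : ℤ) * S.card ≤ 2 * X := by nlinarith
  exact_mod_cast h23

end Pool.Agent.Lib.MP_c81844_nt
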