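import Pool.Agent.Lib.MP_c81844_nt.Defs26

/-!
# The squarefree part of a Euclid number
-/

set_option autoImplicit false

namespace Pool.Agent.Lib.Euc.SqPart1

open scoped NumberTheorySymbols

open jacobiSym ZMod

/-- The symbol `m ↦ (a/m)` is even modulo `4 a`, for `a ≡ 3 mod 4`. -/
theorem J_sub {a m : ℕ} (ha : a % 4 = 3) (hm : Odd m) (hlt : m < 4 * a) :
    J(a | 4 * a - m) = J(a | m) := by
  have hao : Odd a := Nat.odd_iff.2 (by omega)
  have hmo : m % 2 = 1 := Nat.odd_iff.1 hm
  have e3 : J(((4 * a - m : ℕ) : ℤ) | a) = - J((m : ℤ) | a) := by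
    have h1 : J(((4 * a - m : ℕ) : ℤ) | a) = J(-(m : ℤ) | a) := by
      apply mod_left'
      push_cast [Nat.cast_sub hlt.le]
      rw [show (4 * (a : ℤ) - m) = -(m : ℤ) + a * 4 by ring, Int.add_mul_emod_self_left]
    rw [h1, jacobiSym.neg _ hao, χ₄_nat_three_mod_four ha]
    ring
  rcases Nat.odd_mod_four_iff.1 hmo with h | h
  · rw [quadratic_reciprocity_three_mod_four ha (by omega), e3, neg_neg,
      quadratic_reciprocity_one_mod_four' hao h]
  · rw [quadratic_reciprocity_one_mod_four' hao (by omega), e3,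
      quadratic_reciprocity_three_mod_four ha h]

/-- A nontrivial value. -/
theorem exists_neg {a : ℕ} (ha : a % 4 = 3) : ∃ m : ℕ, Odd m ∧ m ≤ a + 2 ∧ J(a | m) = -1 := by
  rcases (by omega : a % 8 = 3 ∨ a % 8 = 7) with h | h
  · have ho : Odd (a + 2) := Nat.odd_iff.2 (by omega)
    refine ⟨a + 2, ho, le_rfl, ?_⟩
    have h1 : J((a : ℤ) | a + 2) = J((-2 : ℤ) | a + 2) := by
      apply mod_left'
      rw [Int.emod_eq_emod_iff_emod_sub_eq_zero,
        show (a : ℤ) - (-2) = ((a + 2 : ℕ) : ℤ) by push_cast; ring, Int.emod_self]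
    rw [h1, at_neg_two ho, ZMod.χ₈'_nat_eq_if_mod_eight]
    have h3 : (a + 2) % 2 ≠ 0 := by omega
    have h4 : ¬ ((a + 2) % 8 = 1 ∨ (a + 2) % 8 = 3) := by omega
    rw [if_neg h3, if_neg h4]
  · have ho : Odd (a - 2) := Nat.odd_iff.2 (by omega)
    refine ⟨a - 2, ho, by omega, ?_⟩
    have h1 : J((a : ℤ) | a - 2) = J((2 : ℤ) | a - 2) := by
      apply mod_left'
      rw [show (a : ℤ) = 2 + ((a - 2 : ℕ) : ℤ) * 1 by omega, Int.add_mul_emod_self_left]
    rw [h1, at_two ho, ZMod.χ₈_nat_eq_if_mod_eight]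
    have h3 : (a - 2) % 2 ≠ 0 := by omega
    have h4 : ¬ ((a - 2) % 8 = 1 ∨ (a - 2) % 8 = 7) := by omega
    rw [if_neg h3, if_neg h4]

/-- If all odd primes up to `y` have symbol `1`, so have all odd numbers up to `y`. -/
theorem one_of_le {a y : ℕ} (h : ∀ p : ℕ, p.Prime → p ≠ 2 → p ≤ y → J(a | p) = 1) :
    ∀ m : ℕ, Odd m → m ≤ y → J(a | m) = 1 := by
  intro m
  induction m using Nat.strong_induction_on with
  | _ m ih =>
    intro hm hmy
    have hm2 : m % 2 = 1 := Nat.odd_iff.1 hm
    rcases eq_or_ne m 1 with rfl | h1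
    · exact one_right _
    have hp := Nat.minFac_prime h1
    obtain ⟨c, hc⟩ := Nat.minFac_dvd m
    have hc0 : 0 < c := by
      rcases Nat.eq_zero_or_pos c with rfl | h0
      · omega
      · exact h0
    have hm0 : 0 < m := by omega
    have hp2 : m.minFac ≠ 2 := by
      intro h2
      rw [h2] at hc
      omega
    have hcm : c < m := by
      conv_rhs => rw [hc]
      have := hp.two_le
      nlinarith
    have hco : Odd c := by
      have : Odd (m.minFac * c) := by rw [← hc]; exact hm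
      exact (Nat.odd_mul.1 this).2
    have e1 := h _ hp hp2 ((Nat.minFac_le hm0).trans hmy)
    have e2 := ih c hcm hco (hcm.le.trans hmy)
    rw [hc, mul_right' _ hp.pos.ne' hc0.ne', e1, e2, one_mul]

/-- If all odd primes up to the odd number `y` have symbol `1`, then `4 a` exceeds `y (y + 2)`. -/
theorem main {a y : ℕ} (ha : a % 4 = 3) (hy : Odd y)
    (h : ∀ p : ℕ, p.Prime → p ≠ 2 → p ≤ y → J(a | p) = 1) : y * (y + 2) < 4 * a := by
  have hone := one_of_le h
  have hex : ∃ m : ℕ, Odd m ∧ J(a | m) = -1 := by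
    obtain ⟨m, h1, -, h2⟩ := exists_neg ha
    exact ⟨m, h1, h2⟩
  classical
  set N := Nat.find hex with hN
  obtain ⟨hNo, hNJ⟩ := Nat.find_spec hex
  rw [← hN] at hNo hNJ
  have hmin : ∀ m : ℕ, Odd m → J(a | m) = -1 → N ≤ m := fun m h1 h2 => Nat.find_min' hex ⟨h1, h2⟩
  have hNa : N ≤ a + 2 := by
    obtain ⟨m, h1, h2, h3⟩ := exists_neg ha
    exact (hmin m h1 h3).trans h2
  have hNy : y + 2 ≤ N := by
    have h1 : y < N := by
      by_contra hc
      push Not at hc
      have := hone N hNo hc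
      rw [this] at hNJ
      norm_num at hNJ
    have h2 := Nat.odd_iff.1 hNo
    have h3 := Nat.odd_iff.1 hy
    omega
  have hN2 := Nat.odd_iff.1 hNo
  have hy2 := Nat.odd_iff.1 hy
  -- the odd multiple of `N` just below `4 a`
  obtain ⟨k, hk, hk1, hk2⟩ : ∃ k : ℕ, Odd k ∧ k * N < 4 * a ∧ 4 * a < (k + 2) * N := by
    have hN0 : 0 < N := by omega
    set q := 4 * a / N with hq
    have h1 : q * N ≤ 4 * a := Nat.div_mul_le_self _ _
    have h2 : 4 * a < (q + 1) * N := Nat.lt_mul_of_div_lt (Nat.lt_succ_self _) hN0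
    have h3 : 1 ≤ q := (Nat.one_le_div_iff hN0).2 (by omega)
    rcases Nat.even_or_odd q with he | ho
    · obtain ⟨j, hj⟩ := he
      refine ⟨q - 1, Nat.odd_iff.2 (by omega), ?_, ?_⟩
      · calc (q - 1) * N < q * N := Nat.mul_lt_mul_of_pos_right (by omega) hN0
          _ ≤ 4 * a := h1
      · rw [show q - 1 + 2 = q + 1 by omega]
        exact h2
    · refine ⟨q, ho, lt_of_le_of_ne h1 ?_, h2.trans ?_⟩
      · intro hc
        have : Odd (q * N) := ho.mul hNo
        rw [hc, Nat.odd_iff] at this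
        omega
      · exact Nat.mul_lt_mul_of_pos_right (by omega) hN0
  have hkk := Nat.odd_iff.1 hk
  have hk20 : Odd (k + 2) := Nat.odd_iff.2 (by omega)
  have hkN : Odd (k * N) := hk.mul hNo
  have hkN2 : Odd ((k + 2) * N) := hk20.mul hNo
  have hkN' := Nat.odd_iff.1 hkN
  have hkN2' := Nat.odd_iff.1 hkN2
  have hsum : (k + 2) * N = k * N + 2 * N := by ring
  have J1 : J(a | 4 * a - k * N) = - J(a | k) := by
    rw [J_sub ha hkN hk1, mul_right' _ (by omega) (by omega), hNJ]
    ring
  have J2 : J(a | (k + 2) * N - 4 * a) = - J(a | k + 2) := by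
    have h1 : ((k + 2) * N) % (4 * a) = (k + 2) * N - 4 * a := by
      rw [Nat.mod_eq_sub_mod hk2.le, Nat.mod_eq_of_lt]
      omega
    rw [← h1, ← mod_right' a hkN2, mul_right' _ (by omega) (by omega), hNJ]
    ring
  have hky : y ≤ k := by
    by_cases hr1 : 4 * a - k * N < N
    · have h1 : J(a | 4 * a - k * N) ≠ -1 := fun hc =>
        absurd (hmin _ (Nat.odd_iff.2 (by omega)) hc) (by omega)
      rw [J1] at h1
      by_contra hc
      exact h1 (by rw [hone k hk (by omega)])
    · by_cases hr2 : (k + 2) * N - 4 * a < N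
      · have h1 : J(a | (k + 2) * N - 4 * a) ≠ -1 := fun hc =>
          absurd (hmin _ (Nat.odd_iff.2 (by omega)) hc) (by omega)
        rw [J2] at h1
        by_contra hc
        exact h1 (by rw [hone (k + 2) hk20 (by omega)])
      · exfalso
        have h1 : 4 * a = (k + 1) * N := by
          have : (k + 1) * N = k * N + N := by ring
          omega
        have h2 : N ∣ 4 * a := ⟨k + 1, by rw [h1]; ring⟩
        have h3 : Nat.Coprime N 4 := by
          have : Nat.Coprime N 2 := (Nat.coprime_two_right).2 hNo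
          exact Nat.Coprime.pow_right 2 this
        have h4 : N ∣ a := h3.dvd_of_dvd_mul_left h2
        have h5 : J(a | N) = 0 := by
          rw [eq_zero_iff]
          refine ⟨by omega, ?_⟩
          rw [Int.gcd_natCast_natCast, Nat.gcd_eq_right h4]
          omega
        rw [h5] at hNJ
        norm_num at hNJ
  calc y * (y + 2) ≤ k * N := Nat.mul_le_mul hky hNy
    _ < 4 * a := hk1

/-! ### Euclid numbers -/

open Pool.Agent.Lib.MP_c81844_nt

theorem E_mod_four {n : ℕ} (hn : 1 ≤ n) : E n % 4 = 3 := by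
  obtain ⟨m, rfl⟩ : ∃ m, n = m + 1 := ⟨n - 1, by omega⟩
  unfold E P
  rw [Finset.prod_range_succ']
  have h0 : Nat.nth Nat.Prime 0 = 2 := Nat.nth_prime_zero_eq_two
  have hodd : Odd (∏ k ∈ Finset.range m, Nat.nth Nat.Prime (k + 1)) := by
    apply Finset.prod_induction _ Odd (fun _ _ => Odd.mul) odd_one
    intro k _
    have hp : (Nat.nth Nat.Prime (k + 1)).Prime := Nat.prime_nth_prime _
    rcases hp.eq_two_or_odd' with h | h
    · exfalso
      have h1 : Nat.nth Nat.Prime 0 < Nat.nth Nat.Prime (k + 1) :=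
        Nat.nth_strictMono Nat.infinite_setOfPred_prime (Nat.succ_pos k)
      omega
    · exact h
  rw [h0]
  obtain ⟨j, hj⟩ := hodd
  rw [hj]
  omega

theorem prime_dvd {n p : ℕ} (hp : p.Prime) (h : p < Nat.nth Nat.Prime n) :
    ∃ c, E n = 1 + p * c := by
  have h1 : Nat.nth Nat.Prime (Nat.count Nat.Prime p) = p := Nat.nth_count hp
  have h2 : Nat.count Nat.Prime p < n := by
    by_contra hc
    push Not at hc
    have h3 : Nat.nth Nat.Prime n ≤ Nat.nth Nat.Prime (Nat.count Nat.Prime p) :=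
      (Nat.nth_strictMono Nat.infinite_setOfPred_prime).monotone hc
    omega
  obtain ⟨c, hc⟩ := Finset.dvd_prod_of_mem (fun i => Nat.nth Nat.Prime i)
    (Finset.mem_range.2 h2)
  refine ⟨c, ?_⟩
  unfold E P
  rw [hc, h1]

/-- The squarefree part of the Euclid number `E_n` is large. -/
theorem sq_part1 {n A B : ℕ} (hn : 1 ≤ n) (h : E n = A * B ^ 2) :
    (Nat.nth Nat.Prime n - 2) * Nat.nth Nat.Prime n < 4 * A := by
  have h4 := E_mod_four hn
  have ha : A % 4 = 3 := by
    rw [h, Nat.mul_mod, Nat.pow_mod] at h4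
    have hb4 : B % 4 < 4 := Nat.mod_lt _ (by norm_num)
    have ha4 : A % 4 < 4 := Nat.mod_lt _ (by norm_num)
    interval_cases hb : B % 4 <;> interval_cases ha' : A % 4 <;> simp_all
  have hp : (Nat.nth Nat.Prime n).Prime := Nat.prime_nth_prime _
  have hp3 : 2 < Nat.nth Nat.Prime n := by
    have h0 : Nat.nth Nat.Prime 0 = 2 := Nat.nth_prime_zero_eq_two
    have h1 : Nat.nth Nat.Prime 0 < Nat.nth Nat.Prime n :=
      Nat.nth_strictMono Nat.infinite_setOfPred_prime (by omega)
    omega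
  have hodd : Nat.nth Nat.Prime n % 2 = 1 := by
    rcases hp.eq_two_or_odd with h2 | h2
    · omega
    · exact h2
  have key := main (y := Nat.nth Nat.Prime n - 2) ha (Nat.odd_iff.2 (by omega)) ?_
  · rwa [show Nat.nth Nat.Prime n - 2 + 2 = Nat.nth Nat.Prime n by omega] at key
  · intro p hp hp2 hple
    obtain ⟨c, hc⟩ := prime_dvd (n := n) hp (by omega)
    have h1 : J((E n : ℕ) | p) = 1 := by
      have : J(((E n : ℕ) : ℤ) | p) = J((1 : ℤ) | p) := by
        apply mod_left'
        rw [hc]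
        push_cast
        rw [Int.add_mul_emod_self_left]
      rw [this, one_left]
    rw [h] at h1
    push_cast at h1
    rw [mul_left, pow_left] at h1
    rcases trichotomy (B : ℤ) p with hb | hb | hb
    · rw [hb] at h1
      norm_num at h1
    · rw [hb] at h1
      simpa using h1
    · rw [hb] at h1
      simpa using h1

/-- The same for all `n`. -/
theorem sq_part1' {n A B : ℕ} (h : E n = A * B ^ 2) :
    (Nat.nth Nat.Prime n - 2) * Nat.nth Nat.Prime n < 4 * A := by
  rcases Nat.eq_zero_or_pos n with rfl | hn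
  · have h0 : Nat.nth Nat.Prime 0 = 2 := Nat.nth_prime_zero_eq_two
    have h1 : A ≠ 0 := by
      rintro rfl
      simp [E] at h
    rw [h0]
    omega
  · exact sq_part1 hn h

end Pool.Agent.Lib.Euc.SqPart1
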